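import Mathlib

/-!
# Twists by ray class characters: definitions
-/

set_option autoImplicit false

namespace Pool.Agent.H11.RC

open NumberField IsDedekindDomain

variable {K : Type} [Field K] [NumberField K]

/-- `ψ` is a character of the ray class group of `K` modulo `𝔣` in the narrow sense, as a function on the ideals:
it is multiplicative (this is part of the type), zero at the ideals which are not coprime to `𝔣` and of absolute value one
at the others, and it is trivial at the principal ideals which are generated by totally positive elements congruent to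
`1` modulo `𝔣`. By class field theory these are the characters of the Galois groups of the abelian extensions
of `K`, of conductor dividing `𝔣` times the infinite places. -/
structure IsRayClassCharacter (𝔣 : Ideal (𝓞 K)) (ψ : Ideal (𝓞 K) →*₀ ℂ) : Prop where
  ne_bot : 𝔣 ≠ ⊥
  zero : ∀ 𝔞 : Ideal (𝓞 K), ¬ IsCoprime 𝔞 𝔣 → ψ 𝔞 = 0
  norm : ∀ 𝔞 : Ideal (𝓞 K), 𝔞 ≠ ⊥ → IsCoprime 𝔞 𝔣 → ‖ψ 𝔞‖ = 1
  one : ∀ x : 𝓞 K, x ≠ 0 → x - 1 ∈ 𝔣 → (∀ φ : K →+* ℝ, 0 < φ x) → ψ (Ideal.span {x}) = 1

/-- The `β v j` are the roots of the Euler factors of `L(H^i(X) ⊗ ψ, s)`, where `α v j` are the eigenvalues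
of Frobenius on `H^i(X)` for `v` outside of the finite set `S`: `β v j = α v j ψ(v)` for the primes outside of
`S` which do not divide `𝔣`; at the other primes they are arbitrary numbers of absolute value at most
`q_v ^ (i / 2)` (for example zero). -/
structure IsTwist (i : ℕ) (S : Finset (HeightOneSpectrum (𝓞 K))) {N : ℕ}
    (α β : HeightOneSpectrum (𝓞 K) → Fin N → ℂ) (𝔣 : Ideal (𝓞 K)) (ψ : Ideal (𝓞 K) →*₀ ℂ) : Prop where
  good : ∀ v ∉ S, IsCoprime v.asIdeal 𝔣 → ∀ j, β v j = α v j * ψ v.asIdeal
  bound : ∀ v j, ‖β v j‖ ≤ (Ideal.absNorm v.asIdeal : ℝ) ^ ((i : ℝ) / 2)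

end Pool.Agent.H11.RC
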