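import Mathlib
import Pool.Agent.H11.RC.Defs

/-!
# Ideal classes
-/

set_option autoImplicit false

namespace Pool.Agent.H11.RC

open NumberField IsDedekindDomain Module

variable {K : Type} [Field K] [NumberField K]

/-- representatives of the ideal classes -/
theorem exists_reps : ∃ c : ClassGroup (𝓞 K) → Ideal (𝓞 K), (∀ g, c g ≠ ⊥) ∧
    ∀ a : Ideal (𝓞 K), a ≠ ⊥ → ∃ g, ∃ x : 𝓞 K, x ≠ 0 ∧ Ideal.span {x} = c g * a := by
  classical
  have h : ∀ g : ClassGroup (𝓞 K), ∃ I : nonZeroDivisors (Ideal (𝓞 K)), ClassGroup.mk0 I = g :=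
    ClassGroup.mk0_surjective
  choose c hc using h
  refine ⟨fun g => (c g : Ideal (𝓞 K)), fun g => nonZeroDivisors.ne_zero (c g).2, fun a ha => ?_⟩
  have ha' : a ∈ nonZeroDivisors (Ideal (𝓞 K)) := mem_nonZeroDivisors_of_ne_zero ha
  refine ⟨(ClassGroup.mk0 ⟨a, ha'⟩)⁻¹, ?_⟩
  have h1 : ClassGroup.mk0 (c (ClassGroup.mk0 ⟨a, ha'⟩)⁻¹ * ⟨a, ha'⟩) = 1 := by
    rw [map_mul, hc, inv_mul_cancel]
  rw [ClassGroup.mk0_eq_one_iff] at h1
  obtain ⟨x, hx⟩ := h1.principal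
  have hx' : Ideal.span {x} = (c (ClassGroup.mk0 ⟨a, ha'⟩)⁻¹ : Ideal (𝓞 K)) * a := by
    rw [← Ideal.submodule_span_eq, ← hx]
    rfl
  refine ⟨x, ?_, hx'⟩
  rintro rfl
  rw [Ideal.span_singleton_eq_bot.mpr rfl] at hx'
  have h2 := mul_eq_zero.mp hx'.symm
  rcases h2 with h2 | h2
  · exact nonZeroDivisors.ne_zero (c (ClassGroup.mk0 ⟨a, ha'⟩)⁻¹).2 h2
  · exact ha h2

/-- an ideal in the inverse class which is coprime to a given one -/
theorem exists_coprime (c M : Ideal (𝓞 K)) (hc : c ≠ ⊥) (hM : M ≠ ⊥) :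
    ∃ b : Ideal (𝓞 K), b ≠ ⊥ ∧ IsCoprime b M ∧ ∃ x : 𝓞 K, x ≠ 0 ∧ Ideal.span {x} = c * b := by
  classical
  have hcM : c * M ≠ ⊥ := mul_ne_zero hc hM
  by_cases hM1 : M = ⊤
  · obtain ⟨x, hxc, hx0⟩ := Submodule.exists_mem_ne_zero_of_ne_bot hc
    obtain ⟨b, hb⟩ := Ideal.dvd_span_singleton.mpr hxc
    refine ⟨b, ?_, ?_, x, hx0, hb⟩
    · rintro rfl
      rw [← Ideal.zero_eq_bot, mul_zero, Ideal.zero_eq_bot, Ideal.span_singleton_eq_bot] at hb
      exact hx0 hb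
    · rw [hM1, ← Ideal.one_eq_top]
      exact isCoprime_one_right
  · obtain ⟨x, hx⟩ := IsDedekindDomain.exists_sup_span_eq (I := c * M) (J := c) Ideal.mul_le_left hcM
    have hxc : x ∈ c := by
      rw [← hx]
      exact Ideal.mem_sup_right (Ideal.mem_span_singleton_self x)
    obtain ⟨b, hb⟩ := Ideal.dvd_span_singleton.mpr hxc
    have h1 : c * (M ⊔ b) = c * 1 := by
      rw [Ideal.mul_sup, ← hb, hx, mul_one]
    have h2 : M ⊔ b = 1 := mul_left_cancel₀ hc h1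
    have hx0 : x ≠ 0 := by
      rintro rfl
      rw [Ideal.span_singleton_eq_bot.mpr rfl, sup_bot_eq] at hx
      apply hM1
      rw [← Ideal.one_eq_top]
      apply mul_left_cancel₀ hc
      rw [hx, mul_one]
    refine ⟨b, ?_, ?_, x, hx0, hb⟩
    · rintro rfl
      rw [← Ideal.zero_eq_bot, mul_zero, Ideal.zero_eq_bot, Ideal.span_singleton_eq_bot] at hb
      exact hx0 hb
    · rw [Ideal.isCoprime_iff_sup_eq, sup_comm, h2, Ideal.one_eq_top]

/-- the power of an ideal by the class number is principal -/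
theorem pow_principal (b : Ideal (𝓞 K)) (hb : b ≠ ⊥) :
    ∃ x : 𝓞 K, x ≠ 0 ∧ Ideal.span {x} = b ^ Fintype.card (ClassGroup (𝓞 K)) := by
  classical
  have hb' : b ∈ nonZeroDivisors (Ideal (𝓞 K)) := mem_nonZeroDivisors_of_ne_zero hb
  have h1 : ClassGroup.mk0 (⟨b, hb'⟩ ^ Fintype.card (ClassGroup (𝓞 K))) = 1 := by
    rw [map_pow, pow_card_eq_one]
  rw [ClassGroup.mk0_eq_one_iff] at h1
  obtain ⟨x, hx⟩ := h1.principal
  have hx' : Ideal.span {x} = b ^ Fintype.card (ClassGroup (𝓞 K)) := by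
    rw [← Ideal.submodule_span_eq, ← hx]
    rfl
  refine ⟨x, ?_, hx'⟩
  rintro rfl
  rw [Ideal.span_singleton_eq_bot.mpr rfl] at hx'
  exact pow_ne_zero _ hb hx'.symm

end Pool.Agent.H11.RC
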