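import Mathlib
import Pool.Agent.H11.RC.Class

/-!
# The values of ray class characters at the elements of an ideal
-/

set_option autoImplicit false

namespace Pool.Agent.H11.RC

open NumberField IsDedekindDomain Module

variable {K : Type} [Field K] [NumberField K]

/-- the ideal generated by `2`, an auxiliary modulus -/
noncomputable def g2 (K : Type) [Field K] [NumberField K] : Ideal (𝓞 K) := Ideal.span {2}

theorem g2_ne_top : g2 K ≠ ⊤ := by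
  intro h
  have h1 : Ideal.absNorm (g2 K) = 1 := by rw [h, Ideal.absNorm_top]
  unfold g2 at h1
  rw [Ideal.absNorm_span_singleton] at h1
  have e : (2 : 𝓞 K) = algebraMap ℤ (𝓞 K) 2 := by simp
  rw [e, Algebra.norm_algebraMap, Int.natAbs_pow] at h1
  have h2 : 0 < Module.finrank ℤ (𝓞 K) := by
    rw [RingOfIntegers.rank]
    exact Module.finrank_pos
  have h3 : (1 : ℕ) < (2 : ℤ).natAbs ^ Module.finrank ℤ (𝓞 K) := Nat.one_lt_pow h2.ne' (by norm_num)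
  omega

theorem g2_ne_bot : g2 K ≠ ⊥ := by
  unfold g2
  rw [Ne, Ideal.span_singleton_eq_bot]
  norm_num

theorem one_notMem_of_le {m : Ideal (𝓞 K)} (h : m ≤ g2 K) : (1 : 𝓞 K) ∉ m := fun h1 =>
  g2_ne_top ((Ideal.eq_top_iff_one _).mpr (h h1))

theorem ne_zero_of_sub {m : Ideal (𝓞 K)} (h : m ≤ g2 K) {x : 𝓞 K} (hx : x - 1 ∈ m) : x ≠ 0 := by
  rintro rfl
  apply one_notMem_of_le h
  have := neg_mem hx
  simpa using this

theorem ne_bot_of_coprime {m a : Ideal (𝓞 K)} (h : m ≤ g2 K) (hx : IsCoprime a m) : a ≠ ⊥ := by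
  rintro rfl
  rw [← Ideal.zero_eq_bot, isCoprime_zero_left, Ideal.isUnit_iff] at hx
  exact one_notMem_of_le h (by rw [hx]; trivial)

/-- the signs at the real places -/
noncomputable def sg (x : 𝓞 K) : (K →+* ℝ) → Bool := by
  classical
  exact fun φ => decide (0 < φ x)

omit [NumberField K] in
theorem sg_iff (x : 𝓞 K) (φ : K →+* ℝ) : sg x φ = true ↔ 0 < φ x := by
  unfold sg
  simp

/-- the sign type of a character -/
noncomputable def ty (𝔣 : Ideal (𝓞 K)) (ψ : Ideal (𝓞 K) →*₀ ℂ) : ((K →+* ℝ) → Bool) → Bool := by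
  classical
  exact fun s => decide (∃ x : 𝓞 K, x ≠ 0 ∧ x - 1 ∈ 𝔣 ∧ sg x = s ∧ ψ (Ideal.span {x}) = -1)

omit [NumberField K] in
theorem ty_iff (𝔣 : Ideal (𝓞 K)) (ψ : Ideal (𝓞 K) →*₀ ℂ) (s : (K →+* ℝ) → Bool) :
    ty 𝔣 ψ s = true ↔ ∃ x : 𝓞 K, x ≠ 0 ∧ x - 1 ∈ 𝔣 ∧ sg x = s ∧ ψ (Ideal.span {x}) = -1 := by
  unfold ty
  simp

omit [NumberField K] in
theorem mul_sub_one {𝔣 : Ideal (𝓞 K)} {x y : 𝓞 K} (hx : x - 1 ∈ 𝔣) (hy : y - 1 ∈ 𝔣) :
    x * y - 1 ∈ 𝔣 := by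
  have e : x * y - 1 = x * (y - 1) + (x - 1) := by ring
  rw [e]
  exact 𝔣.add_mem (𝔣.mul_mem_left _ hy) hx

theorem pos_mul {x y : 𝓞 K} (hx : x ≠ 0) (hy : y ≠ 0) (h : sg x = sg y) (φ : K →+* ℝ) :
    0 < φ ((x * y : 𝓞 K) : K) := by
  have hxK : (x : K) ≠ 0 := fun h => hx (RingOfIntegers.coe_eq_zero_iff.mp h)
  have hyK : (y : K) ≠ 0 := fun h => hy (RingOfIntegers.coe_eq_zero_iff.mp h)
  have h1 : φ (x : K) ≠ 0 := (map_ne_zero φ).mpr hxK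
  have h2 : φ (y : K) ≠ 0 := (map_ne_zero φ).mpr hyK
  have h3 : (0 < φ (x : K)) ↔ (0 < φ (y : K)) := by rw [← sg_iff, ← sg_iff, h]
  have e : φ ((x * y : 𝓞 K) : K) = φ (x : K) * φ (y : K) := by
    rw [← map_mul]
    rfl
  rw [e]
  rcases lt_or_gt_of_ne h1 with h4 | h4
  · have h5 : φ (y : K) < 0 := by
      rcases lt_or_gt_of_ne h2 with h5 | h5
      · exact h5
      · exact absurd (h3.mpr h5) (not_lt.mpr h4.le)
    exact mul_pos_of_neg_of_neg h4 h5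
  · exact mul_pos h4 (h3.mp h4)

section
variable {𝔣 : Ideal (𝓞 K)} {ψ : Ideal (𝓞 K) →*₀ ℂ} (h : IsRayClassCharacter 𝔣 ψ)
include h

theorem IsRayClassCharacter.mul_eq {x y : 𝓞 K} (hx : x ≠ 0) (hy : y ≠ 0) (hx1 : x - 1 ∈ 𝔣)
    (hy1 : y - 1 ∈ 𝔣) (hs : sg x = sg y) : ψ (Ideal.span {x}) * ψ (Ideal.span {y}) = 1 := by
  rw [← map_mul, Ideal.span_singleton_mul_span_singleton]
  exact h.one _ (mul_ne_zero hx hy) (mul_sub_one hx1 hy1) (pos_mul hx hy hs)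

theorem IsRayClassCharacter.val {x : 𝓞 K} (hx : x ≠ 0) (hx1 : x - 1 ∈ 𝔣) :
    ψ (Ideal.span {x}) = if ty 𝔣 ψ (sg x) then -1 else 1 := by
  have h1 := h.mul_eq hx hx hx1 hx1 rfl
  have h2 : ψ (Ideal.span {x}) = 1 ∨ ψ (Ideal.span {x}) = -1 := mul_self_eq_one_iff.mp h1
  split_ifs with ht
  · rw [ty_iff] at ht
    obtain ⟨y, hy, hy1, hy2, hy3⟩ := ht
    have h3 := h.mul_eq hx hy hx1 hy1 hy2.symm
    rw [hy3] at h3
    linear_combination -h3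
  · rcases h2 with h2 | h2
    · exact h2
    · exfalso
      apply ht
      rw [ty_iff]
      exact ⟨x, hx, hx1, rfl, h2⟩

theorem IsRayClassCharacter.norm_le (a : Ideal (𝓞 K)) : ‖ψ a‖ ≤ 1 := by
  by_cases ha : a = ⊥
  · rw [ha, ← Ideal.zero_eq_bot, map_zero, norm_zero]
    exact zero_le_one
  · by_cases hc : IsCoprime a 𝔣
    · exact (h.norm a ha hc).le
    · rw [h.zero a hc, norm_zero]
      exact zero_le_one

end

/-- the value at the quotient of an element by the ideal `c`, for quotients coprime to `2 𝔣` -/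
noncomputable def fv (𝔣 c : Ideal (𝓞 K)) (ψ : Ideal (𝓞 K) →*₀ ℂ) (x : 𝓞 K) : ℂ := by
  classical
  exact if h : ∃ a : Ideal (𝓞 K), Ideal.span {x} = c * a ∧ IsCoprime a (𝔣 * g2 K) then ψ h.choose else 0

theorem fv_eq {𝔣 c : Ideal (𝓞 K)} (ψ : Ideal (𝓞 K) →*₀ ℂ) {x : 𝓞 K} (hc : c ≠ ⊥) {a : Ideal (𝓞 K)}
    (ha : Ideal.span {x} = c * a) (hco : IsCoprime a (𝔣 * g2 K)) : fv 𝔣 c ψ x = ψ a := by
  have h : ∃ a : Ideal (𝓞 K), Ideal.span {x} = c * a ∧ IsCoprime a (𝔣 * g2 K) := ⟨a, ha, hco⟩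
  unfold fv
  rw [dif_pos h]
  congr 1
  exact mul_left_cancel₀ hc (h.choose_spec.1.symm.trans ha)

theorem fv_zero {𝔣 c : Ideal (𝓞 K)} (ψ : Ideal (𝓞 K) →*₀ ℂ) {x : 𝓞 K} (hc : c ≠ ⊥) {a : Ideal (𝓞 K)}
    (ha : Ideal.span {x} = c * a) (hco : ¬ IsCoprime a (𝔣 * g2 K)) : fv 𝔣 c ψ x = 0 := by
  unfold fv
  rw [dif_neg]
  rintro ⟨b, hb, hb2⟩
  have : b = a := mul_left_cancel₀ hc (hb.symm.trans ha)
  rw [this] at hb2
  exact hco hb2

theorem fv_notMem {𝔣 c : Ideal (𝓞 K)} (ψ : Ideal (𝓞 K) →*₀ ℂ) {x : 𝓞 K} (hx : x ∉ c) :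
    fv 𝔣 c ψ x = 0 := by
  unfold fv
  rw [dif_neg]
  rintro ⟨b, hb, -⟩
  apply hx
  exact Ideal.dvd_span_singleton.mp ⟨b, hb⟩

theorem fv_norm {𝔣 c : Ideal (𝓞 K)} {ψ : Ideal (𝓞 K) →*₀ ℂ} (h : IsRayClassCharacter 𝔣 ψ) (x : 𝓞 K) :
    ‖fv 𝔣 c ψ x‖ ≤ 1 := by
  unfold fv
  split_ifs
  · exact h.norm_le _
  · simp

/-- the quotients of two congruent elements -/
theorem per_aux {c m a : Ideal (𝓞 K)} (hc : c ≠ ⊥) (hm : m ≤ g2 K) {x x' : 𝓞 K}
    (hxx : x - x' ∈ c * m) (ha : Ideal.span {x} = c * a) (hco : IsCoprime a m) :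
    ∃ a' : Ideal (𝓞 K), Ideal.span {x'} = c * a' ∧ IsCoprime a' m ∧ ∃ y y' : 𝓞 K, y - 1 ∈ m ∧
      y' - 1 ∈ m ∧ Ideal.span {y'} * a = Ideal.span {y} * a' := by
  have hxc : x ∈ c := Ideal.dvd_span_singleton.mp ⟨a, ha⟩
  have hx'c : x' ∈ c := by
    have h1 : x - x' ∈ c := Ideal.mul_le_left hxx
    have := c.sub_mem hxc h1
    simpa using this
  obtain ⟨a', ha'⟩ := Ideal.dvd_span_singleton.mpr hx'c
  have ha0 : a ≠ ⊥ := ne_bot_of_coprime hm hco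
  have hx0 : x ≠ 0 := by
    rintro rfl
    rw [Ideal.span_singleton_eq_bot.mpr rfl] at ha
    exact mul_ne_zero hc ha0 ha.symm
  have hco' : IsCoprime a' m := by
    rw [Ideal.isCoprime_iff_sup_eq] at hco ⊢
    have h1 : c * (a' ⊔ m) = c * (a ⊔ m) := by
      rw [Ideal.mul_sup, Ideal.mul_sup, ← ha, ← ha']
      apply le_antisymm
      · refine sup_le ?_ le_sup_right
        rw [Ideal.span_singleton_le_iff_mem]
        have e : x' = x - (x - x') := by ring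
        rw [e]
        exact Ideal.sub_mem _ (Ideal.mem_sup_left (Ideal.mem_span_singleton_self x))
          (Ideal.mem_sup_right hxx)
      · refine sup_le ?_ le_sup_right
        rw [Ideal.span_singleton_le_iff_mem]
        have e : x = x' + (x - x') := by ring
        rw [e]
        exact Ideal.add_mem _ (Ideal.mem_sup_left (Ideal.mem_span_singleton_self x'))
          (Ideal.mem_sup_right hxx)
    rw [hco] at h1
    exact mul_left_cancel₀ hc h1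
  refine ⟨a', ha', hco', ?_⟩
  obtain ⟨y, hy, μ, hμ, hyμ⟩ := Submodule.mem_sup.mp
    (show (1 : 𝓞 K) ∈ a ⊔ m by rw [Ideal.isCoprime_iff_sup_eq.mp hco]; trivial)
  have hy1 : y - 1 ∈ m := by
    have e : y - 1 = -μ := by linear_combination hyμ
    rw [e]
    exact neg_mem hμ
  -- the quotient
  have h1 : y * x' ∈ Ideal.span {x} * a' := by
    rw [ha, mul_comm c a, mul_assoc, ← ha']
    exact Ideal.mul_mem_mul hy (Ideal.mem_span_singleton_self x')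
  obtain ⟨y', hy', hyy⟩ := Ideal.mem_span_singleton_mul.mp h1
  have h2 : y * (x' - x) ∈ Ideal.span {x} * m := by
    rw [ha, mul_comm c a, mul_assoc]
    refine Ideal.mul_mem_mul hy ?_
    have e : x' - x = -(x - x') := by ring
    rw [e]
    exact neg_mem hxx
  obtain ⟨ν, hν, hν2⟩ := Ideal.mem_span_singleton_mul.mp h2
  have h3 : y' - y = ν := by
    apply mul_left_cancel₀ hx0
    rw [hν2]
    linear_combination hyy
  refine ⟨y, y', hy1, ?_, ?_⟩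
  · have e : y' - 1 = ν + (y - 1) := by rw [← h3]; ring
    rw [e]
    exact m.add_mem hν hy1
  · apply mul_left_cancel₀ hc
    calc c * (Ideal.span {y'} * a) = (c * a) * Ideal.span {y'} := by ring
      _ = Ideal.span {x} * Ideal.span {y'} := by rw [ha]
      _ = Ideal.span {y * x'} := by rw [Ideal.span_singleton_mul_span_singleton, hyy]
      _ = Ideal.span {y} * Ideal.span {x'} := by rw [Ideal.span_singleton_mul_span_singleton]
      _ = c * (Ideal.span {y} * a') := by rw [ha']; ring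

/-- the product of two values -/
noncomputable def pv (𝔣 𝔣' c : Ideal (𝓞 K)) (ψ ψ' : Ideal (𝓞 K) →*₀ ℂ) (x : 𝓞 K) : ℂ :=
  fv 𝔣 c ψ x * (starRingEnd ℂ) (fv 𝔣' c ψ' x)

theorem pv_eq {𝔣 𝔣' c : Ideal (𝓞 K)} (ψ ψ' : Ideal (𝓞 K) →*₀ ℂ) {x : 𝓞 K} (hc : c ≠ ⊥)
    {a : Ideal (𝓞 K)} (ha : Ideal.span {x} = c * a) (hco : IsCoprime a (𝔣 * 𝔣' * g2 K)) :
    pv 𝔣 𝔣' c ψ ψ' x = ψ a * (starRingEnd ℂ) (ψ' a) := by
  have h1 := IsCoprime.of_mul_right_left hco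
  have h2 := IsCoprime.of_mul_right_right hco
  have h3 := IsCoprime.of_mul_right_left h1
  have h4 := IsCoprime.of_mul_right_right h1
  unfold pv
  rw [fv_eq ψ hc ha (h3.mul_right h2), fv_eq ψ' hc ha (h4.mul_right h2)]

theorem pv_zero {𝔣 𝔣' c : Ideal (𝓞 K)} (ψ ψ' : Ideal (𝓞 K) →*₀ ℂ) {x : 𝓞 K} (hc : c ≠ ⊥)
    (h : ¬ ∃ a : Ideal (𝓞 K), Ideal.span {x} = c * a ∧ IsCoprime a (𝔣 * 𝔣' * g2 K)) :
    pv 𝔣 𝔣' c ψ ψ' x = 0 := by
  unfold pv
  by_cases hx : x ∈ c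
  · obtain ⟨a, ha⟩ := Ideal.dvd_span_singleton.mpr hx
    by_cases h1 : IsCoprime a (𝔣 * g2 K)
    · by_cases h2 : IsCoprime a (𝔣' * g2 K)
      · exfalso
        apply h
        refine ⟨a, ha, ?_⟩
        exact ((IsCoprime.of_mul_right_left h1).mul_right (IsCoprime.of_mul_right_left h2)).mul_right
          (IsCoprime.of_mul_right_right h1)
      · rw [fv_zero ψ' hc ha h2, map_zero, mul_zero]
    · rw [fv_zero ψ hc ha h1, zero_mul]
  · rw [fv_notMem ψ hx, zero_mul]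

/-- **Periodicity.** -/
theorem per {𝔣 𝔣' c : Ideal (𝓞 K)} {ψ ψ' : Ideal (𝓞 K) →*₀ ℂ} (h : IsRayClassCharacter 𝔣 ψ)
    (h' : IsRayClassCharacter 𝔣' ψ') (ht : ty 𝔣 ψ = ty 𝔣' ψ') (hc : c ≠ ⊥) {x x' : 𝓞 K}
    (hxx : x - x' ∈ c * (𝔣 * 𝔣' * g2 K)) : pv 𝔣 𝔣' c ψ ψ' x = pv 𝔣 𝔣' c ψ ψ' x' := by
  have hm : 𝔣 * 𝔣' * g2 K ≤ g2 K := Ideal.mul_le_right
  by_cases hex : ∃ a : Ideal (𝓞 K), Ideal.span {x} = c * a ∧ IsCoprime a (𝔣 * 𝔣' * g2 K)
  · obtain ⟨a, ha, hco⟩ := hex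
    obtain ⟨a', ha', hco', y, y', hy, hy', hyy⟩ := per_aux hc hm hxx ha hco
    rw [pv_eq ψ ψ' hc ha hco, pv_eq ψ ψ' hc ha' hco']
    have hy0 := ne_zero_of_sub hm hy
    have hy0' := ne_zero_of_sub hm hy'
    have hle : 𝔣 * 𝔣' * g2 K ≤ 𝔣 := Ideal.mul_le_left.trans Ideal.mul_le_left
    have hle' : 𝔣 * 𝔣' * g2 K ≤ 𝔣' := Ideal.mul_le_left.trans Ideal.mul_le_right
    have e1 : ∀ z : 𝓞 K, z ≠ 0 → z - 1 ∈ 𝔣 * 𝔣' * g2 K →
        ψ (Ideal.span {z}) * (starRingEnd ℂ) (ψ' (Ideal.span {z})) = 1 := by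
      intro z hz hz1
      rw [h.val hz (hle hz1), h'.val hz (hle' hz1), ht]
      split_ifs <;> simp
    have e2 : ψ (Ideal.span {y'}) * ψ a = ψ (Ideal.span {y}) * ψ a' := by
      rw [← map_mul, ← map_mul, hyy]
    have e3 : ψ' (Ideal.span {y'}) * ψ' a = ψ' (Ideal.span {y}) * ψ' a' := by
      rw [← map_mul, ← map_mul, hyy]
    have e4 := congrArg (starRingEnd ℂ) e3
    rw [map_mul, map_mul] at e4
    have e5 := e1 y hy0 hy
    have e6 := e1 y' hy0' hy'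
    calc ψ a * (starRingEnd ℂ) (ψ' a) = (ψ (Ideal.span {y'}) * (starRingEnd ℂ) (ψ' (Ideal.span {y'}))) *
          (ψ a * (starRingEnd ℂ) (ψ' a)) := by rw [e6, one_mul]
      _ = (ψ (Ideal.span {y'}) * ψ a) * ((starRingEnd ℂ) (ψ' (Ideal.span {y'})) * (starRingEnd ℂ) (ψ' a)) := by
          ring
      _ = (ψ (Ideal.span {y}) * ψ a') * ((starRingEnd ℂ) (ψ' (Ideal.span {y})) * (starRingEnd ℂ) (ψ' a')) := by
          rw [e2, e4]
      _ = (ψ (Ideal.span {y}) * (starRingEnd ℂ) (ψ' (Ideal.span {y}))) *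
          (ψ a' * (starRingEnd ℂ) (ψ' a')) := by ring
      _ = _ := by rw [e5, one_mul]
  · have hex' : ¬ ∃ a : Ideal (𝓞 K), Ideal.span {x'} = c * a ∧ IsCoprime a (𝔣 * 𝔣' * g2 K) := by
      rintro ⟨a, ha, hco⟩
      apply hex
      have hxx' : x' - x ∈ c * (𝔣 * 𝔣' * g2 K) := by
        have := neg_mem hxx
        simpa using this
      obtain ⟨a', ha', hco', -⟩ := per_aux hc hm hxx' ha hco
      exact ⟨a', ha', hco'⟩
    rw [pv_zero ψ ψ' hc hex, pv_zero ψ ψ' hc hex']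

theorem fv_mul {𝔣 c : Ideal (𝓞 K)} (ψ : Ideal (𝓞 K) →*₀ ℂ) (hc : c ≠ ⊥) {u x : 𝓞 K}
    (hu : IsCoprime (Ideal.span {u}) (𝔣 * g2 K)) (huc : IsCoprime (Ideal.span {u}) c) :
    fv 𝔣 c ψ (u * x) = ψ (Ideal.span {u}) * fv 𝔣 c ψ x := by
  by_cases hx : x ∈ c
  · obtain ⟨a, ha⟩ := Ideal.dvd_span_singleton.mpr hx
    have ha2 : Ideal.span {u * x} = c * (Ideal.span {u} * a) := by
      rw [← Ideal.span_singleton_mul_span_singleton, ha]
      ring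
    by_cases hco : IsCoprime a (𝔣 * g2 K)
    · rw [fv_eq ψ hc ha hco, fv_eq ψ hc ha2 (hu.mul_left hco), map_mul]
    · rw [fv_zero ψ hc ha hco, fv_zero ψ hc ha2 (fun h => hco (IsCoprime.of_mul_left_right h)), mul_zero]
  · have hx2 : u * x ∉ c := by
      intro h
      apply hx
      obtain ⟨y, hy, μ, hμ, hyμ⟩ := Submodule.mem_sup.mp
        (show (1 : 𝓞 K) ∈ Ideal.span {u} ⊔ c by rw [Ideal.isCoprime_iff_sup_eq.mp huc]; trivial)
      obtain ⟨r, rfl⟩ := Ideal.mem_span_singleton'.mp hy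
      have e : x = r * (u * x) + μ * x := by linear_combination -x * hyμ
      rw [e]
      exact c.add_mem (c.mul_mem_left _ h) (c.mul_mem_right _ hμ)
    rw [fv_notMem ψ hx, fv_notMem ψ hx2, mul_zero]

end Pool.Agent.H11.RC
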