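import Mathlib
import Pool.Agent.H11.RC.Char

/-!
# The characters which agree on the principal ideals
-/

set_option autoImplicit false

namespace Pool.Agent.H11.RC

open NumberField IsDedekindDomain Module Finset

variable {K : Type} [Field K] [NumberField K]

/-- ideals in all classes which are coprime to a given ideal -/
theorem exists_family (M : Ideal (𝓞 K)) (hM : M ≠ ⊥) : ∃ e : ClassGroup (𝓞 K) → Ideal (𝓞 K),
    (∀ g, e g ≠ ⊥ ∧ IsCoprime (e g) M) ∧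
    ∀ a : Ideal (𝓞 K), a ≠ ⊥ → ∃ g, ∃ x : 𝓞 K, x ≠ 0 ∧ Ideal.span {x} = e g * a := by
  classical
  obtain ⟨c, hc0, hc⟩ := exists_reps (K := K)
  have h : ∀ g, ∃ b : Ideal (𝓞 K), b ≠ ⊥ ∧ IsCoprime b M ∧ ∃ x : 𝓞 K, x ≠ 0 ∧ Ideal.span {x} = c g * b :=
    fun g => exists_coprime (c g) M (hc0 g) hM
  choose b hb0 hbM x hx0 hx using h
  refine ⟨b, fun g => ⟨hb0 g, hbM g⟩, fun a ha => ?_⟩
  -- the class of `c g` for `g` such that `c g * a'` is principal, where `a' * a` is principal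
  obtain ⟨a', ha'0, -, y, hy0, hy⟩ := exists_coprime a ⊤ ha top_ne_bot
  obtain ⟨g, z, hz0, hz⟩ := hc a' ha'0
  -- `a * a' = (y)`, `c g * a' = (z)`, `c g * b g = (x g)`
  refine ⟨g, ?_⟩
  -- `(z) * (b g * a) = (y) * (x g)`
  have h1 : Ideal.span {z} * (b g * a) = Ideal.span {y} * Ideal.span {x g} := by
    rw [hz, hy, hx]
    ring
  rw [Ideal.span_singleton_mul_span_singleton] at h1
  have h2 : y * x g ∈ Ideal.span {z} * (b g * a) := by
    rw [h1]
    exact Ideal.mem_span_singleton_self _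
  obtain ⟨t, ht, htz⟩ := Ideal.mem_span_singleton_mul.mp h2
  have ht0 : t ≠ 0 := by
    rintro rfl
    rw [mul_zero] at htz
    exact mul_ne_zero hy0 (hx0 g) htz.symm
  refine ⟨t, ht0, ?_⟩
  have hzb : Ideal.span {z} ≠ ⊥ := by
    rw [Ne, Ideal.span_singleton_eq_bot]
    exact hz0
  apply mul_left_cancel₀ hzb
  rw [h1, Ideal.span_singleton_mul_span_singleton, htz]

/-- the characters agree on the principal ideals coprime to `M` -/
def Rel (M : ℕ) (ψ ψ' : Ideal (𝓞 K) →*₀ ℂ) : Prop :=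
  ∀ u : 𝓞 K, u ≠ 0 → IsCoprime (Ideal.span {u}) (Ideal.span {(M : 𝓞 K)}) →
    ψ (Ideal.span {u}) * (starRingEnd ℂ) (ψ' (Ideal.span {u})) = 1

omit [NumberField K] in
theorem Rel.symm {M : ℕ} {ψ ψ' : Ideal (𝓞 K) →*₀ ℂ} (h : Rel M ψ ψ') : Rel M ψ' ψ := by
  intro u hu hc
  have h1 := congrArg (starRingEnd ℂ) (h u hu hc)
  rw [map_mul, Complex.conj_conj, map_one, mul_comm] at h1
  exact h1

/-- the primes dividing an ideal -/
theorem finite_primes {M : Ideal (𝓞 K)} (hM : M ≠ ⊥) :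
    {v : HeightOneSpectrum (𝓞 K) | ¬ IsCoprime v.asIdeal M}.Finite := by
  refine (Ideal.finite_factors hM).subset fun v hv => ?_
  rw [Set.mem_ofPred_eq, Ideal.isCoprime_iff_sup_eq] at hv
  rw [Set.mem_ofPred_eq, Ideal.dvd_iff_le]
  by_contra hcon
  apply hv
  have h1 : v.asIdeal < v.asIdeal ⊔ M := lt_of_le_of_ne le_sup_left fun h => hcon (by
    rw [h]
    exact le_sup_right)
  exact v.isMaximal.1.2 _ h1

/-- the bound for the number of related characters -/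
noncomputable def mK (K : Type) [Field K] [NumberField K] : ℕ :=
  (Polynomial.nthRootsFinset (Fintype.card (ClassGroup (𝓞 K))) (1 : ℂ)).card ^
    Fintype.card (ClassGroup (𝓞 K))

open Classical in
theorem card_rel {M : ℕ} (hM : 0 < M) {ψ : Ideal (𝓞 K) →*₀ ℂ}
    (hψ : ∀ a : Ideal (𝓞 K), a ≠ ⊥ → IsCoprime a (Ideal.span {(M : 𝓞 K)}) → ‖ψ a‖ = 1)
    (F : Finset (Ideal (𝓞 K) →*₀ ℂ))
    (hF : ∀ ψ' ∈ F, ∀ ψ'' ∈ F, ψ' ≠ ψ'' →
      {v : HeightOneSpectrum (𝓞 K) | ψ' v.asIdeal ≠ ψ'' v.asIdeal}.Infinite) :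
    (F.filter fun ψ' => Rel M ψ ψ').card ≤ mK K := by
  have hMb : Ideal.span {(M : 𝓞 K)} ≠ ⊥ := by
    rw [Ne, Ideal.span_singleton_eq_bot]
    exact_mod_cast hM.ne'
  obtain ⟨e, he, hea⟩ := exists_family (K := K) _ hMb
  set h := Fintype.card (ClassGroup (𝓞 K)) with hh
  have hpos : 0 < h := Fintype.card_pos
  -- the map
  have hmaps : ∀ ψ' ∈ F.filter (fun ψ' => Rel M ψ ψ'), (fun g => ψ (e g) * (starRingEnd ℂ) (ψ' (e g))) ∈
      Fintype.piFinset (fun _ : ClassGroup (𝓞 K) => Polynomial.nthRootsFinset h (1 : ℂ)) := by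
    intro ψ' hψ'
    rw [mem_filter] at hψ'
    rw [Fintype.mem_piFinset]
    intro g
    rw [Polynomial.mem_nthRootsFinset hpos]
    obtain ⟨y, hy0, hy⟩ := pow_principal (e g) (he g).1
    have hyc : IsCoprime (Ideal.span {y}) (Ideal.span {(M : 𝓞 K)}) := by
      rw [hy]
      exact (he g).2.pow_left
    have h1 := hψ'.2 y hy0 hyc
    rw [hy, map_pow, map_pow, map_pow, ← mul_pow] at h1
    exact h1
  have hinj : Set.InjOn (fun (ψ' : Ideal (𝓞 K) →*₀ ℂ) (g : ClassGroup (𝓞 K)) =>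
      ψ (e g) * (starRingEnd ℂ) (ψ' (e g))) (F.filter (fun ψ' => Rel M ψ ψ') : Set (Ideal (𝓞 K) →*₀ ℂ)) := by
    intro ψ' h' ψ'' h'' heq
    rw [mem_coe, mem_filter] at h' h''
    by_contra hne
    have hinf := hF ψ' h'.1 ψ'' h''.1 hne
    apply hinf
    refine (finite_primes hMb).subset fun v hv => ?_
    intro hco
    apply hv
    have hv0 : v.asIdeal ≠ ⊥ := v.ne_bot
    obtain ⟨g, x, hx0, hx⟩ := hea v.asIdeal hv0
    have hxc : IsCoprime (Ideal.span {x}) (Ideal.span {(M : 𝓞 K)}) := by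
      rw [hx]
      exact (he g).2.mul_left hco
    have h1 := h'.2 x hx0 hxc
    have h2 := h''.2 x hx0 hxc
    have h3 := congrFun heq g
    simp only at h3
    rw [hx, map_mul, map_mul, map_mul] at h1 h2
    have h4 : ψ v.asIdeal ≠ 0 := by
      rw [← norm_ne_zero_iff, hψ _ hv0 hco]
      exact one_ne_zero
    have h5 : (starRingEnd ℂ) (ψ' v.asIdeal) = (starRingEnd ℂ) (ψ'' v.asIdeal) := by
      have h6 : ψ (e g) * (starRingEnd ℂ) (ψ' (e g)) ≠ 0 := by
        intro h0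
        have : ψ (e g) * ψ v.asIdeal * ((starRingEnd ℂ) (ψ' (e g)) * (starRingEnd ℂ) (ψ' v.asIdeal)) =
          (ψ (e g) * (starRingEnd ℂ) (ψ' (e g))) * (ψ v.asIdeal * (starRingEnd ℂ) (ψ' v.asIdeal)) := by ring
        rw [this, h0, zero_mul] at h1
        exact zero_ne_one h1
      apply mul_left_cancel₀ (mul_ne_zero h6 h4)
      calc ψ (e g) * (starRingEnd ℂ) (ψ' (e g)) * ψ v.asIdeal * (starRingEnd ℂ) (ψ' v.asIdeal) =
          ψ (e g) * ψ v.asIdeal * ((starRingEnd ℂ) (ψ' (e g)) * (starRingEnd ℂ) (ψ' v.asIdeal)) := by ring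
        _ = ψ (e g) * ψ v.asIdeal * ((starRingEnd ℂ) (ψ'' (e g)) * (starRingEnd ℂ) (ψ'' v.asIdeal)) := by
            rw [h1, h2]
        _ = (ψ (e g) * (starRingEnd ℂ) (ψ'' (e g))) * ψ v.asIdeal * (starRingEnd ℂ) (ψ'' v.asIdeal) := by ring
        _ = _ := by rw [← h3]
    exact (starRingEnd ℂ).injective h5
  refine (card_le_card_of_injOn _ hmaps hinj).trans ?_
  rw [Fintype.card_piFinset, prod_const, card_univ]
  exact le_rfl

end Pool.Agent.H11.RC
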