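import Mathlib
import Pool.Agent.H11.RC.Defs

/-!
# Generators of principal ideals with small coordinates, and ideal classes
-/

set_option autoImplicit false

namespace Pool.Agent.H11.RC

open NumberField IsDedekindDomain NumberField.mixedEmbedding Module

variable (K : Type) [Field K] [NumberField K]

/-- the index set of the coordinates -/
abbrev Ix : Type := Free.ChooseBasisIndex ℤ (𝓞 K)

theorem card_Ix : Fintype.card (Ix K) = Module.finrank ℚ K := by
  rw [← Module.finrank_eq_card_chooseBasisIndex, RingOfIntegers.rank]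

open scoped Classical in
/-- the coordinates of the elements of the mixed space are bounded -/
theorem coord_bound : ∃ C : ℝ, 0 < C ∧ ∀ (x : 𝓞 K) (i : Ix K),
    |((RingOfIntegers.basis K).repr x i : ℝ)| ≤ C * ‖mixedEmbedding K (x : K)‖ := by
  classical
  have h : ∀ i : Ix K, ∃ C : ℝ, 0 < C ∧ ∀ y : mixedSpace K, |(latticeBasis K).repr y i| ≤ C * ‖y‖ := by
    intro i
    let f : mixedSpace K →ₗ[ℝ] ℝ := (Finsupp.lapply i).comp (latticeBasis K).repr.toLinearMap
    have hf := f.toContinuousLinearMap.le_opNorm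
    refine ⟨‖f.toContinuousLinearMap‖ + 1, by positivity, fun y => ?_⟩
    have h1 := hf y
    have h2 : f.toContinuousLinearMap y = (latticeBasis K).repr y i := rfl
    rw [h2, Real.norm_eq_abs] at h1
    have := norm_nonneg y
    linarith
  choose C hC hC2 using h
  have hne : Nonempty (Ix K) := by
    have h1 : 0 < Fintype.card (Ix K) := by
      rw [card_Ix]
      exact Module.finrank_pos
    exact Fintype.card_pos_iff.mp h1
  refine ⟨∑ i, C i, Finset.sum_pos (fun i _ => hC i) Finset.univ_nonempty, fun x i => ?_⟩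
  have h1 := hC2 i (mixedEmbedding K (x : K))
  rw [latticeBasis_repr_apply, integralBasis_repr_apply] at h1
  have h2 : C i ≤ ∑ i, C i := Finset.single_le_sum (fun i _ => (hC i).le) (Finset.mem_univ i)
  have h3 : (((algebraMap ℤ ℚ) ((RingOfIntegers.basis K).repr x i) : ℚ) : ℝ) =
      ((RingOfIntegers.basis K).repr x i : ℝ) := by simp
  rw [h3] at h1
  refine h1.trans ?_
  gcongr

/-- **Small generators.** -/
theorem small_generator : ∃ C : ℝ, 0 < C ∧ ∀ (x : 𝓞 K) (Y : ℝ), x ≠ 0 → 0 < Y →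
    (Ideal.absNorm (Ideal.span {x}) : ℝ) ≤ Y ^ Module.finrank ℚ K →
    ∃ y : 𝓞 K, Ideal.span {y} = Ideal.span {x} ∧ y ≠ 0 ∧
      ∀ i : Ix K, |((RingOfIntegers.basis K).repr y i : ℝ)| ≤ C * Y := by
  classical
  obtain ⟨C, hC, hcoord⟩ := coord_bound K
  obtain ⟨R, hR, hR2⟩ := (fundamentalCone.isBounded_normLeOne K).exists_pos_norm_le
  refine ⟨C * R, by positivity, fun x Y hx hY hN => ?_⟩
  have hxK : (x : K) ≠ 0 := by
    intro h
    exact hx (RingOfIntegers.coe_eq_zero_iff.mp h)
  have hn0 : mixedEmbedding.norm (mixedEmbedding K (x : K)) ≠ 0 := by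
    rw [mixedEmbedding.norm_eq_norm]
    simpa using hxK
  obtain ⟨u, hu⟩ := fundamentalCone.exists_unit_smul_mem hn0
  have hY' : Y⁻¹ ≠ 0 := inv_ne_zero hY.ne'
  have h1 : (Y⁻¹ : ℝ) • (u • mixedEmbedding K (x : K)) ∈ fundamentalCone.normLeOne K := by
    refine ⟨fundamentalCone.smul_mem_of_mem hu hY', ?_⟩
    rw [Set.mem_ofPred_eq, mixedEmbedding.norm_smul, norm_unit_smul,
      mixedEmbedding.norm_eq_norm, abs_of_pos (by positivity), inv_pow]
    have e : ((|Algebra.norm ℚ (x : K)| : ℚ) : ℝ) = (Ideal.absNorm (Ideal.span {x}) : ℝ) := by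
      rw [Ideal.absNorm_span_singleton, ← Algebra.coe_norm_int]
      simp [Nat.cast_natAbs]
    rw [e]
    rw [inv_mul_le_iff₀ (by positivity), mul_one]
    exact hN
  have h2 := hR2 _ h1
  rw [_root_.norm_smul, Real.norm_of_nonneg (by positivity), inv_mul_le_iff₀ hY] at h2
  have h3 : u • mixedEmbedding K (x : K) = mixedEmbedding K (((u : 𝓞 K) * x : 𝓞 K) : K) := by
    rw [unitSMul_smul, ← map_mul]
    rfl
  rw [h3] at h2
  refine ⟨(u : 𝓞 K) * x, ?_, mul_ne_zero u.ne_zero hx, fun i => ?_⟩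
  · rw [Ideal.span_singleton_eq_span_singleton]
    exact (associated_unit_mul_left x u u.isUnit)
  · refine (hcoord _ i).trans ?_
    calc C * _ ≤ C * (Y * R) := by gcongr
      _ = _ := by ring

end Pool.Agent.H11.RC
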