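import Mathlib
import Pool.Agent.H11.RC.Char
import Pool.Agent.H11.RC.Cover
import Pool.Agent.H11.PS.BoxMom

/-!
# Sums of periodic functions on the ring of integers
-/

set_option autoImplicit false

namespace Pool.Agent.H11.RC

open NumberField IsDedekindDomain Module Finset
open Pool.Agent.H11.PS (W W_nonneg sum_W box_le)

variable {K : Type} [Field K] [NumberField K]

noncomputable instance instDecIx : DecidableEq (Ix K) := Classical.decEq _

/-- the element with given coordinates -/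
noncomputable def toO (x : Ix K → ℤ) : 𝓞 K := (RingOfIntegers.basis K).equivFun.symm x

theorem toO_add (x y : Ix K → ℤ) : toO (x + y) = toO x + toO y := map_add _ _ _

theorem toO_sub (x y : Ix K → ℤ) : toO (x - y) = toO x - toO y := map_sub _ _ _

theorem toO_smul (n : ℤ) (x : Ix K → ℤ) : toO (n • x) = (n : 𝓞 K) * toO x := by
  unfold toO
  rw [map_smul, zsmul_eq_mul]

/-- the coordinates -/
noncomputable def co (y : 𝓞 K) : Ix K → ℤ := (RingOfIntegers.basis K).equivFun y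

theorem toO_co (y : 𝓞 K) : toO (co y) = y := by
  unfold toO co
  exact LinearEquiv.symm_apply_apply _ _

theorem co_toO (x : Ix K → ℤ) : co (toO x) = x := by
  unfold toO co
  exact LinearEquiv.apply_symm_apply _ _

theorem sub_mem_of_cong {M : ℕ} {I : Ideal (𝓞 K)} (hM : (M : 𝓞 K) ∈ I) {x y : Ix K → ℤ}
    (h : ∀ i, ((x i : ℤ) : ZMod M) = ((y i : ℤ) : ZMod M)) : toO x - toO y ∈ I := by
  have h1 : ∀ i, ∃ t : ℤ, x i - y i = M * t := by
    intro i
    have h2 := (ZMod.intCast_eq_intCast_iff_dvd_sub _ _ _).mp (h i).symm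
    exact h2
  choose t ht using h1
  have e : x - y = (M : ℤ) • t := by
    funext i
    rw [Pi.sub_apply, ht i, Pi.smul_apply, smul_eq_mul]
  rw [← toO_sub, e, toO_smul]
  exact I.mul_mem_right _ (by exact_mod_cast hM)

theorem cong_of_sub_mem {M : ℕ} {x y : Ix K → ℤ} (h : toO x - toO y ∈ Ideal.span {(M : 𝓞 K)}) (i : Ix K) :
    ((x i : ℤ) : ZMod M) = ((y i : ℤ) : ZMod M) := by
  rw [Ideal.mem_span_singleton] at h
  obtain ⟨z, hz⟩ := h
  have e : toO (x - y) = toO ((M : ℤ) • co z) := by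
    rw [toO_sub, hz, toO_smul, toO_co]
    push_cast
    rfl
  have e2 := congrArg co e
  rw [co_toO, co_toO] at e2
  have e3 := congrFun e2 i
  rw [Pi.sub_apply, Pi.smul_apply, smul_eq_mul] at e3
  rw [eq_comm, ZMod.intCast_eq_intCast_iff_dvd_sub]
  exact ⟨_, e3⟩

variable {M : ℕ} [NeZero M]

/-- a representative -/
noncomputable def lift (x : Ix K → ZMod M) : 𝓞 K := toO fun i => ((x i).val : ℤ)

theorem val_cast (z : ZMod M) : (((z.val : ℕ) : ℤ) : ZMod M) = z := by
  rw [Int.cast_natCast, ZMod.natCast_zmod_val]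

theorem lift_cast {I : Ideal (𝓞 K)} (hM : (M : 𝓞 K) ∈ I) (x : Ix K → ℤ) :
    lift (M := M) (fun i => ((x i : ℤ) : ZMod M)) - toO x ∈ I :=
  sub_mem_of_cong hM fun _ => val_cast _

theorem lift_shift {I : Ideal (𝓞 K)} (hM : (M : 𝓞 K) ∈ I) {L : ℕ} (hL : (L : 𝓞 K) ∈ I)
    (x : Ix K → ZMod M) (i : Ix K) : lift (x + Pi.single i (L : ZMod M)) - lift x ∈ I := by
  have h1 : lift (x + Pi.single i (L : ZMod M)) -
      toO ((fun j => ((x j).val : ℤ)) + Pi.single i (L : ℤ)) ∈ I := by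
    refine sub_mem_of_cong hM fun j => ?_
    rw [val_cast, Pi.add_apply, Pi.add_apply]
    push_cast
    rw [ZMod.natCast_zmod_val]
    congr 1
    by_cases hj : j = i
    · subst hj
      simp
    · rw [Pi.single_eq_of_ne hj, Pi.single_eq_of_ne hj]
      simp
  have h2 : toO ((fun j => ((x j).val : ℤ)) + Pi.single i (L : ℤ)) - lift x ∈ I := by
    rw [toO_add]
    have e : Pi.single i (L : ℤ) = (L : ℤ) • (Pi.single i (1 : ℤ) : Ix K → ℤ) := by
      rw [← Pi.single_smul, smul_eq_mul, mul_one]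
    rw [e, toO_smul]
    have e2 : toO (fun j => ((x j).val : ℤ)) + ((L : ℤ) : 𝓞 K) * toO (Pi.single i (1 : ℤ)) - lift x =
        ((L : ℤ) : 𝓞 K) * toO (Pi.single i (1 : ℤ)) := by
      unfold lift
      ring
    rw [e2]
    exact I.mul_mem_right _ (by exact_mod_cast hL)
  have := I.add_mem h1 h2
  simpa using this

/-- multiplication by an element -/
noncomputable def mu (u : 𝓞 K) (x : Ix K → ZMod M) : Ix K → ZMod M := fun i => ((co (u * lift x) i : ℤ) : ZMod M)

theorem lift_mu (u : 𝓞 K) (x : Ix K → ZMod M) :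
    lift (mu u x) - u * lift x ∈ Ideal.span {(M : 𝓞 K)} := by
  have h := lift_cast (M := M) (Ideal.mem_span_singleton_self (M : 𝓞 K)) (co (u * lift x))
  rw [toO_co] at h
  exact h

theorem lift_inj {x y : Ix K → ZMod M} (h : lift x - lift y ∈ Ideal.span {(M : 𝓞 K)}) : x = y := by
  funext i
  have h1 := cong_of_sub_mem h i
  rwa [val_cast, val_cast] at h1

theorem mu_inv {u w : 𝓞 K} (h : w * u - 1 ∈ Ideal.span {(M : 𝓞 K)}) (x : Ix K → ZMod M) :
    mu w (mu u x) = x := by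
  apply lift_inj
  have h1 := lift_mu w (mu u x)
  have h2 := lift_mu u x
  have e : lift (mu w (mu u x)) - lift x = (lift (mu w (mu u x)) - w * lift (mu u x)) +
      w * (lift (mu u x) - u * lift x) + (w * u - 1) * lift x := by ring
  rw [e]
  exact Ideal.add_mem _ (Ideal.add_mem _ h1 (Ideal.mul_mem_left _ _ h2)) (Ideal.mul_mem_right _ _ h)

/-- the sum over a full period of a function which is multiplied by a constant different from one -/
theorem sum_zero {P : 𝓞 K → ℂ} {u : 𝓞 K} {z : ℂ} (hz : z ≠ 1)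
    (hu : IsCoprime (Ideal.span {u}) (Ideal.span {(M : 𝓞 K)})) (hP : ∀ x, P (u * x) = z * P x)
    (hper : ∀ x y, x - y ∈ Ideal.span {(M : 𝓞 K)} → P x = P y) :
    ∑ x : Ix K → ZMod M, P (lift x) = 0 := by
  obtain ⟨y, hy, ν, hν, hyν⟩ := Submodule.mem_sup.mp
    (show (1 : 𝓞 K) ∈ Ideal.span {u} ⊔ Ideal.span {(M : 𝓞 K)} by
      rw [Ideal.isCoprime_iff_sup_eq.mp hu]; trivial)
  obtain ⟨w, rfl⟩ := Ideal.mem_span_singleton'.mp hy
  have h1 : w * u - 1 ∈ Ideal.span {(M : 𝓞 K)} := by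
    have e : w * u - 1 = -ν := by linear_combination hyν
    rw [e]
    exact neg_mem hν
  have h2 : u * w - 1 ∈ Ideal.span {(M : 𝓞 K)} := by rwa [mul_comm]
  let e : (Ix K → ZMod M) ≃ (Ix K → ZMod M) := ⟨mu u, mu w, mu_inv h1, mu_inv h2⟩
  have h3 : ∑ x : Ix K → ZMod M, P (lift x) = z * ∑ x : Ix K → ZMod M, P (lift x) := by
    conv_lhs => rw [← Equiv.sum_comp e]
    rw [mul_sum]
    refine sum_congr rfl fun x _ => ?_
    rw [← hP]
    exact hper _ _ (lift_mu u x)
  have h4 : (1 - z) * ∑ x : Ix K → ZMod M, P (lift x) = 0 := by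
    rw [sub_mul, one_mul, ← h3, sub_self]
  rcases mul_eq_zero.mp h4 with h5 | h5
  · exact absurd (sub_eq_zero.mp h5).symm hz
  · exact h5

/-- the weighted sum -/
theorem weighted {L K0 : ℕ} (hK : 0 < K0) (hL : 0 < L) (hLK : K0 * L ≤ M) {I : Ideal (𝓞 K)}
    (hMI : (M : 𝓞 K) ∈ I) (hLI : (L : 𝓞 K) ∈ I) {P : 𝓞 K → ℂ} (hper : ∀ x y, x - y ∈ I → P x = P y) :
    ∑ x : Ix K → ZMod M, (W K0 x : ℂ) * P (lift x) =
      (1 / (K0 : ℂ) ^ Fintype.card (Ix K)) * ∑ x : Ix K → ZMod M, P (lift x) := by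
  have h1 := sum_W (M := M) (ι := Ix K) hK hL hLK (fun x => (P (lift x)).re) (fun x i => by
    rw [hper _ _ (lift_shift hMI hLI x i)])
  have h2 := sum_W (M := M) (ι := Ix K) hK hL hLK (fun x => (P (lift x)).im) (fun x i => by
    rw [hper _ _ (lift_shift hMI hLI x i)])
  have e1 : (1 / (K0 : ℂ) ^ Fintype.card (Ix K)) = (((1 / (K0 : ℝ) ^ Fintype.card (Ix K)) : ℝ) : ℂ) := by
    push_cast
    rfl
  apply Complex.ext
  · rw [Complex.re_sum, e1, Complex.re_ofReal_mul, Complex.re_sum, ← h1]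
    refine sum_congr rfl fun x _ => ?_
    rw [Complex.re_ofReal_mul]
  · rw [Complex.im_sum, e1, Complex.im_ofReal_mul, Complex.im_sum, ← h2]
    refine sum_congr rfl fun x _ => ?_
    rw [Complex.im_ofReal_mul]

end Pool.Agent.H11.RC
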