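import Mathlib
import Pool.Agent.H11.RC.Torus
import Pool.Agent.H11.RC.Rel

/-!
# The large sieve inequality for ray class characters
-/

set_option autoImplicit false

namespace Pool.Agent.H11.RC

open NumberField IsDedekindDomain Module Finset
open Pool.Agent.H11.PS (W W_nonneg sum_W box_le)

variable {K : Type} [Field K] [NumberField K]

theorem pv_norm {𝔣 𝔣' c : Ideal (𝓞 K)} {ψ ψ' : Ideal (𝓞 K) →*₀ ℂ} (h : IsRayClassCharacter 𝔣 ψ)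
    (h' : IsRayClassCharacter 𝔣' ψ') (x : 𝓞 K) : ‖pv 𝔣 𝔣' c ψ ψ' x‖ ≤ 1 := by
  unfold pv
  rw [norm_mul, RCLike.norm_conj]
  exact mul_le_one₀ (fv_norm h x) (norm_nonneg _) (fv_norm h' x)

omit [NumberField K] in
theorem coprime_of_le {a m n : Ideal (𝓞 K)} (h : IsCoprime a m) (hmn : m ≤ n) : IsCoprime a n := by
  rw [Ideal.isCoprime_iff_sup_eq] at h ⊢
  exact eq_top_iff.mpr (h.ge.trans (sup_le_sup_left hmn a))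

theorem pair_zero {𝔣 𝔣' c : Ideal (𝓞 K)} {ψ ψ' : Ideal (𝓞 K) →*₀ ℂ} (h : IsRayClassCharacter 𝔣 ψ)
    (h' : IsRayClassCharacter 𝔣' ψ') (ht : ty 𝔣 ψ = ty 𝔣' ψ') (hc : c ≠ ⊥) {M : ℕ} [NeZero M]
    (hM : (M : 𝓞 K) ∈ c * (𝔣 * 𝔣' * g2 K)) (hrel : ¬ Rel M ψ ψ') :
    ∑ x : Ix K → ZMod M, pv 𝔣 𝔣' c ψ ψ' (lift x) = 0 := by
  unfold Rel at hrel
  push Not at hrel
  obtain ⟨u, hu0, huc, hu⟩ := hrel
  have hle : Ideal.span {(M : 𝓞 K)} ≤ c * (𝔣 * 𝔣' * g2 K) := by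
    rwa [Ideal.span_singleton_le_iff_mem]
  have h1 : IsCoprime (Ideal.span {u}) c := coprime_of_le huc (hle.trans Ideal.mul_le_left)
  have h2 : IsCoprime (Ideal.span {u}) (𝔣 * 𝔣' * g2 K) := coprime_of_le huc (hle.trans Ideal.mul_le_right)
  have h3 := IsCoprime.of_mul_right_left h2
  have h4 := IsCoprime.of_mul_right_right h2
  have h5 := IsCoprime.of_mul_right_left h3
  have h6 := IsCoprime.of_mul_right_right h3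
  refine sum_zero (P := pv 𝔣 𝔣' c ψ ψ') hu huc (fun x => ?_) fun x y hxy => ?_
  · unfold pv
    rw [fv_mul ψ hc (h5.mul_right h4) h1, fv_mul ψ' hc (h6.mul_right h4) h1, map_mul]
    ring
  · exact per h h' ht hc (hle hxy)

theorem pair_bound {𝔣 𝔣' c : Ideal (𝓞 K)} {ψ ψ' : Ideal (𝓞 K) →*₀ ℂ} (h : IsRayClassCharacter 𝔣 ψ)
    (h' : IsRayClassCharacter 𝔣' ψ') (ht : ty 𝔣 ψ = ty 𝔣' ψ') (hc : c ≠ ⊥) {H K0 M : ℕ} [NeZero M]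
    (hMe : M = 6 * H * K0) (hK0 : 0 < K0) (hK : (K0 : 𝓞 K) ∈ c * (𝔣 * 𝔣' * g2 K))
    (hL : Ideal.absNorm (c * (𝔣 * 𝔣' * g2 K)) ≤ 6 * H) :
    ‖∑ x : Ix K → ZMod M, (W K0 x : ℂ) * pv 𝔣 𝔣' c ψ ψ' (lift x)‖ ≤
      (by classical exact if Rel M ψ ψ' then (6 * (H : ℝ)) ^ Fintype.card (Ix K) else 0) := by
  classical
  have hI0 : c * (𝔣 * 𝔣' * g2 K) ≠ ⊥ :=
    mul_ne_zero hc (mul_ne_zero (mul_ne_zero h.ne_bot h'.ne_bot) g2_ne_bot)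
  have hLpos : 0 < Ideal.absNorm (c * (𝔣 * 𝔣' * g2 K)) := by
    rw [Nat.pos_iff_ne_zero, Ne, Ideal.absNorm_eq_zero_iff]
    exact hI0
  have hM : (M : 𝓞 K) ∈ c * (𝔣 * 𝔣' * g2 K) := by
    rw [hMe]
    push_cast
    exact Ideal.mul_mem_left _ _ hK
  have hLK : K0 * Ideal.absNorm (c * (𝔣 * 𝔣' * g2 K)) ≤ M := by
    rw [hMe, mul_comm]
    exact Nat.mul_le_mul_right _ hL
  rw [weighted hK0 hLpos hLK hM (Ideal.absNorm_mem _) (P := pv 𝔣 𝔣' c ψ ψ')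
    (fun x y hxy => per h h' ht hc hxy)]
  split_ifs with hrel
  · rw [norm_mul]
    have h1 : ‖∑ x : Ix K → ZMod M, pv 𝔣 𝔣' c ψ ψ' (lift x)‖ ≤ (M : ℝ) ^ Fintype.card (Ix K) := by
      refine (norm_sum_le _ _).trans ?_
      calc _ ≤ ∑ _x : Ix K → ZMod M, (1 : ℝ) := sum_le_sum fun x _ => pv_norm h h' _
        _ = _ := by
            rw [sum_const, nsmul_eq_mul, mul_one, card_univ, Fintype.card_fun, ZMod.card]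
            push_cast
            rfl
    have h2 : ‖(1 / (K0 : ℂ) ^ Fintype.card (Ix K))‖ = 1 / (K0 : ℝ) ^ Fintype.card (Ix K) := by
      rw [norm_div, norm_one, norm_pow, Complex.norm_natCast]
    have hK0r : (0 : ℝ) < K0 := by exact_mod_cast hK0
    rw [h2]
    calc 1 / (K0 : ℝ) ^ Fintype.card (Ix K) * ‖∑ x : Ix K → ZMod M, pv 𝔣 𝔣' c ψ ψ' (lift x)‖ ≤
        1 / (K0 : ℝ) ^ Fintype.card (Ix K) * (M : ℝ) ^ Fintype.card (Ix K) := by gcongr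
      _ = _ := by
          rw [hMe]
          push_cast
          rw [mul_pow _ (K0 : ℝ)]
          field_simp
  · rw [pair_zero h h' ht hc hM hrel, mul_zero, norm_zero]

omit [NumberField K] in
theorem mem_mul_nat (I : Ideal (𝓞 K)) (n t : ℕ) (h : (n : 𝓞 K) ∈ I) : ((n * t : ℕ) : 𝓞 K) ∈ I := by
  rw [Nat.cast_mul]
  exact I.mul_mem_right _ h

/-- the primitive of the dual inequality: one ideal class, one sign type -/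
theorem dual_class {F : Finset (Ideal (𝓞 K) →*₀ ℂ)} {mo : (Ideal (𝓞 K) →*₀ ℂ) → Ideal (𝓞 K)}
    (hF : ∀ ψ ∈ F, IsRayClassCharacter (mo ψ) ψ)
    (hty : ∀ ψ ∈ F, ∀ ψ' ∈ F, ty (mo ψ) ψ = ty (mo ψ') ψ')
    (hin : ∀ ψ' ∈ F, ∀ ψ'' ∈ F, ψ' ≠ ψ'' →
      {v : HeightOneSpectrum (𝓞 K) | ψ' v.asIdeal ≠ ψ'' v.asIdeal}.Infinite)
    {c : Ideal (𝓞 K)} (hc : c ≠ ⊥) {H : ℕ} (hH : 1 ≤ H)
    (hL : ∀ ψ ∈ F, ∀ ψ' ∈ F, Ideal.absNorm (c * (mo ψ * mo ψ' * g2 K)) ≤ 6 * H)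
    (w : (Ideal (𝓞 K) →*₀ ℂ) → ℂ) :
    ∑ x ∈ Pool.Agent.Y722.HS.box (Ix K) H, ‖∑ ψ ∈ F, w ψ * fv (mo ψ) c ψ (toO x)‖ ^ 2 ≤
      (24 * (H : ℝ)) ^ Fintype.card (Ix K) * mK K * ∑ ψ ∈ F, ‖w ψ‖ ^ 2 := by
  classical
  obtain ⟨K0, hK0e⟩ : ∃ K0 : ℕ, K0 = Ideal.absNorm c * (∏ ψ ∈ F, Ideal.absNorm (mo ψ)) ^ 2 *
    Ideal.absNorm (g2 K) := ⟨_, rfl⟩
  have hpos : ∀ I : Ideal (𝓞 K), I ≠ ⊥ → 0 < Ideal.absNorm I := by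
    intro I hI
    rw [Nat.pos_iff_ne_zero, Ne, Ideal.absNorm_eq_zero_iff]
    exact hI
  have hprod : 0 < ∏ ψ ∈ F, Ideal.absNorm (mo ψ) :=
    Finset.prod_pos fun ψ hψ => hpos _ (hF ψ hψ).ne_bot
  have hK0 : 0 < K0 := by
    have h1 := hpos c hc
    have h2 := hpos _ (g2_ne_bot (K := K))
    rw [hK0e]
    exact Nat.mul_pos (Nat.mul_pos h1 (pow_pos hprod 2)) h2
  have hKmem : ∀ ψ ∈ F, ∀ ψ' ∈ F, (K0 : 𝓞 K) ∈ c * (mo ψ * mo ψ' * g2 K) := by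
    intro ψ hψ ψ' hψ'
    have h1 : Ideal.absNorm (c * (mo ψ * mo ψ' * g2 K)) ∣ K0 := by
      rw [map_mul, map_mul, map_mul, hK0e, mul_assoc (Ideal.absNorm c)]
      refine mul_dvd_mul_left _ (mul_dvd_mul_right ?_ _)
      rw [sq]
      exact mul_dvd_mul (dvd_prod_of_mem _ hψ) (dvd_prod_of_mem _ hψ')
    obtain ⟨t, ht⟩ := h1
    rw [ht]
    exact mem_mul_nat _ _ _ (Ideal.absNorm_mem _)
  obtain ⟨M, hMe⟩ : ∃ M : ℕ, M = 6 * H * K0 := ⟨_, rfl⟩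
  have hM0 : 0 < M := by
    rw [hMe]
    exact Nat.mul_pos (by omega) hK0
  have : NeZero M := ⟨hM0.ne'⟩
  have hMmem : ∀ ψ ∈ F, ∀ ψ' ∈ F, (M : 𝓞 K) ∈ c * (mo ψ * mo ψ' * g2 K) := by
    intro ψ hψ ψ' hψ'
    rw [hMe]
    push_cast
    exact Ideal.mul_mem_left _ _ (hKmem ψ hψ ψ' hψ')
  -- the square as a double sum
  have hsq : ∀ y : 𝓞 K, ((‖∑ ψ ∈ F, w ψ * fv (mo ψ) c ψ y‖ ^ 2 : ℝ) : ℂ) =
      ∑ ψ ∈ F, ∑ ψ' ∈ F, w ψ * (starRingEnd ℂ) (w ψ') * pv (mo ψ) (mo ψ') c ψ ψ' y := by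
    intro y
    push_cast
    rw [← Complex.mul_conj', map_sum, sum_mul_sum]
    refine sum_congr rfl fun ψ _ => sum_congr rfl fun ψ' _ => ?_
    rw [map_mul]
    unfold pv
    ring
  have hperΦ : ∀ x : Ix K → ℤ, ‖∑ ψ ∈ F, w ψ * fv (mo ψ) c ψ (toO x)‖ ^ 2 =
      ‖∑ ψ ∈ F, w ψ * fv (mo ψ) c ψ (lift (M := M) (fun i => ((x i : ℤ) : ZMod M)))‖ ^ 2 := by
    intro x
    have h1 : ((‖∑ ψ ∈ F, w ψ * fv (mo ψ) c ψ (toO x)‖ ^ 2 : ℝ) : ℂ) =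
        ((‖∑ ψ ∈ F, w ψ * fv (mo ψ) c ψ (lift (M := M) (fun i => ((x i : ℤ) : ZMod M)))‖ ^ 2 : ℝ) : ℂ) := by
      rw [hsq, hsq]
      refine sum_congr rfl fun ψ hψ => sum_congr rfl fun ψ' hψ' => ?_
      rw [per (hF ψ hψ) (hF ψ' hψ') (hty ψ hψ ψ' hψ') hc (lift_cast (hMmem ψ hψ ψ' hψ') x)]
    exact_mod_cast h1
  have hbox := box_le (M := M) (ι := Ix K) hH hK0 hMe.ge
    (fun x => ‖∑ ψ ∈ F, w ψ * fv (mo ψ) c ψ (lift x)‖ ^ 2) (fun x => by positivity)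
  rw [sum_congr rfl fun x _ => hperΦ x]
  refine hbox.trans ?_
  -- the weighted sum
  set d := Fintype.card (Ix K) with hd
  have hH0 : (0 : ℝ) ≤ (6 * (H : ℝ)) ^ d := by positivity
  have hw : ∑ x : Ix K → ZMod M, W K0 x * ‖∑ ψ ∈ F, w ψ * fv (mo ψ) c ψ (lift x)‖ ^ 2 ≤
      ∑ ψ ∈ F, ∑ ψ' ∈ F, ‖w ψ‖ * ‖w ψ'‖ * (if Rel M ψ ψ' then (6 * (H : ℝ)) ^ d else 0) := by
    have h1 : ((∑ x : Ix K → ZMod M, W K0 x * ‖∑ ψ ∈ F, w ψ * fv (mo ψ) c ψ (lift x)‖ ^ 2 : ℝ) : ℂ) =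
        ∑ ψ ∈ F, ∑ ψ' ∈ F, w ψ * (starRingEnd ℂ) (w ψ') *
          ∑ x : Ix K → ZMod M, (W K0 x : ℂ) * pv (mo ψ) (mo ψ') c ψ ψ' (lift x) := by
      have e1 : ((∑ x : Ix K → ZMod M, W K0 x * ‖∑ ψ ∈ F, w ψ * fv (mo ψ) c ψ (lift x)‖ ^ 2 : ℝ) : ℂ) =
          ∑ x : Ix K → ZMod M, (W K0 x : ℂ) *
            ((‖∑ ψ ∈ F, w ψ * fv (mo ψ) c ψ (lift x)‖ ^ 2 : ℝ) : ℂ) := by
        push_cast
        rfl
      rw [e1, sum_congr rfl fun x _ => by rw [hsq, mul_sum]]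
      rw [sum_comm]
      refine sum_congr rfl fun ψ _ => ?_
      simp only [mul_sum]
      rw [sum_comm]
      refine sum_congr rfl fun ψ' _ => sum_congr rfl fun x _ => ?_
      ring
    have h0 : 0 ≤ ∑ x : Ix K → ZMod M, W K0 x * ‖∑ ψ ∈ F, w ψ * fv (mo ψ) c ψ (lift x)‖ ^ 2 :=
      sum_nonneg fun x _ => mul_nonneg (W_nonneg _ _) (by positivity)
    have h2 : ∑ x : Ix K → ZMod M, W K0 x * ‖∑ ψ ∈ F, w ψ * fv (mo ψ) c ψ (lift x)‖ ^ 2 =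
        ‖((∑ x : Ix K → ZMod M, W K0 x * ‖∑ ψ ∈ F, w ψ * fv (mo ψ) c ψ (lift x)‖ ^ 2 : ℝ) : ℂ)‖ := by
      rw [Complex.norm_real, Real.norm_of_nonneg h0]
    rw [h2, h1]
    refine (norm_sum_le _ _).trans (sum_le_sum fun ψ hψ => ?_)
    refine (norm_sum_le _ _).trans (sum_le_sum fun ψ' hψ' => ?_)
    rw [norm_mul, norm_mul, RCLike.norm_conj]
    have h3 := pair_bound (hF ψ hψ) (hF ψ' hψ') (hty ψ hψ ψ' hψ') hc hMe hK0 (hKmem ψ hψ ψ' hψ')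
      (hL ψ hψ ψ' hψ')
    gcongr
  -- Schur
  have hcard : ∀ ψ ∈ F, ((F.filter fun ψ' => Rel M ψ ψ').card : ℝ) ≤ mK K := by
    intro ψ hψ
    have h1 := card_rel hM0 (ψ := ψ) (fun a ha hco => (hF ψ hψ).norm a ha (coprime_of_le hco (by
      rw [Ideal.span_singleton_le_iff_mem]
      have h2 := hMmem ψ hψ ψ hψ
      exact Ideal.mul_le_left (Ideal.mul_le_left (Ideal.mul_le_right h2))))) F hin
    exact_mod_cast h1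
  have hschur : ∑ ψ ∈ F, ∑ ψ' ∈ F, ‖w ψ‖ * ‖w ψ'‖ * (if Rel M ψ ψ' then (6 * (H : ℝ)) ^ d else 0) ≤
      (6 * (H : ℝ)) ^ d * (mK K * ∑ ψ ∈ F, ‖w ψ‖ ^ 2) := by
    have e1 : ∀ ψ ∈ F, ∀ ψ' ∈ F, ‖w ψ‖ * ‖w ψ'‖ * (if Rel M ψ ψ' then (6 * (H : ℝ)) ^ d else 0) ≤
        (6 * (H : ℝ)) ^ d * ((if Rel M ψ ψ' then ‖w ψ‖ ^ 2 / 2 else 0) +
          (if Rel M ψ ψ' then ‖w ψ'‖ ^ 2 / 2 else 0)) := by
      intro ψ _ ψ' _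
      split_ifs
      · have h1 := two_mul_le_add_sq ‖w ψ‖ ‖w ψ'‖
        have h2 : ‖w ψ‖ * ‖w ψ'‖ ≤ ‖w ψ‖ ^ 2 / 2 + ‖w ψ'‖ ^ 2 / 2 := by linarith
        calc ‖w ψ‖ * ‖w ψ'‖ * (6 * (H : ℝ)) ^ d ≤ (‖w ψ‖ ^ 2 / 2 + ‖w ψ'‖ ^ 2 / 2) * (6 * (H : ℝ)) ^ d := by
              gcongr
          _ = _ := by ring
      · simp
    refine (sum_le_sum fun ψ hψ => sum_le_sum fun ψ' hψ' => e1 ψ hψ ψ' hψ').trans ?_
    simp only [← mul_sum, sum_add_distrib]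
    refine mul_le_mul_of_nonneg_left ?_ hH0
    have e2 : ∑ ψ ∈ F, ∑ ψ' ∈ F, (if Rel M ψ ψ' then ‖w ψ‖ ^ 2 / 2 else 0) ≤
        (mK K : ℝ) * ∑ ψ ∈ F, ‖w ψ‖ ^ 2 / 2 := by
      rw [mul_sum]
      refine sum_le_sum fun ψ hψ => ?_
      rw [← sum_filter, sum_const, nsmul_eq_mul]
      have := hcard ψ hψ
      gcongr
    have e3 : ∑ ψ ∈ F, ∑ ψ' ∈ F, (if Rel M ψ ψ' then ‖w ψ'‖ ^ 2 / 2 else 0) ≤
        (mK K : ℝ) * ∑ ψ ∈ F, ‖w ψ‖ ^ 2 / 2 := by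
      rw [sum_comm, mul_sum]
      refine sum_le_sum fun ψ hψ => ?_
      rw [← sum_filter, sum_const, nsmul_eq_mul]
      have h1 : F.filter (fun ψ' => Rel M ψ' ψ) = F.filter (fun ψ' => Rel M ψ ψ') :=
        filter_congr fun ψ' _ => ⟨fun h => h.symm, fun h => h.symm⟩
      rw [h1]
      have := hcard ψ hψ
      gcongr
    have e4 : ∑ ψ ∈ F, ‖w ψ‖ ^ 2 / 2 = (∑ ψ ∈ F, ‖w ψ‖ ^ 2) / 2 := by rw [sum_div]
    rw [e4] at e2 e3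
    linarith
  calc 4 ^ d * ∑ x : Ix K → ZMod M, W K0 x * ‖∑ ψ ∈ F, w ψ * fv (mo ψ) c ψ (lift x)‖ ^ 2 ≤
      4 ^ d * ((6 * (H : ℝ)) ^ d * (mK K * ∑ ψ ∈ F, ‖w ψ‖ ^ 2)) := by
        gcongr
        exact hw.trans hschur
    _ = _ := by
        rw [show (24 * (H : ℝ)) = 4 * (6 * H) by ring, mul_pow 4 (6 * (H : ℝ))]
        ring

end Pool.Agent.H11.RC
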