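import Mathlib
import Pool.Agent.H11.RC.Sieve

/-!
# The large sieve inequality for the ray class characters of a number field
-/

set_option autoImplicit false

namespace Pool.Agent.H11.RC

open NumberField IsDedekindDomain Module Finset

variable {K : Type} [Field K] [NumberField K]

/-- A finite family of ray class characters of conductors of norm at most `Q`, no two of which agree at almost all
primes. -/
structure Family (Q : ℕ) (F : Finset (Ideal (𝓞 K) →*₀ ℂ))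
    (mo : (Ideal (𝓞 K) →*₀ ℂ) → Ideal (𝓞 K)) : Prop where
  char : ∀ ψ ∈ F, IsRayClassCharacter (mo ψ) ψ
  norm : ∀ ψ ∈ F, Ideal.absNorm (mo ψ) ≤ Q
  ineq : ∀ ψ' ∈ F, ∀ ψ'' ∈ F, ψ' ≠ ψ'' →
      {v : HeightOneSpectrum (𝓞 K) | ψ' v.asIdeal ≠ ψ'' v.asIdeal}.Infinite

theorem Family.mono {Q : ℕ} {F F' : Finset (Ideal (𝓞 K) →*₀ ℂ)}
    {mo : (Ideal (𝓞 K) →*₀ ℂ) → Ideal (𝓞 K)} (h : Family Q F mo) (hF : F' ⊆ F) : Family Q F' mo :=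
  ⟨fun ψ hψ => h.char ψ (hF hψ), fun ψ hψ => h.norm ψ (hF hψ),
    fun ψ hψ ψ' hψ' => h.ineq ψ (hF hψ) ψ' (hF hψ')⟩

theorem absNorm_le {Q : ℕ} {F : Finset (Ideal (𝓞 K) →*₀ ℂ)}
    {mo : (Ideal (𝓞 K) →*₀ ℂ) → Ideal (𝓞 K)} (h : Family Q F mo) {c : Ideal (𝓞 K)} {n : ℕ}
    (hc : Ideal.absNorm c ≤ n) : ∀ ψ ∈ F, ∀ ψ' ∈ F,
      Ideal.absNorm (c * (mo ψ * mo ψ' * g2 K)) ≤ n * (Q ^ 2 * Ideal.absNorm (g2 K)) := by
  intro ψ hψ ψ' hψ'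
  rw [map_mul, map_mul, map_mul, sq]
  have h1 := h.norm ψ hψ
  have h2 := h.norm ψ' hψ'
  gcongr

/-- all sign types -/
theorem dual_types (K : Type) [Field K] [NumberField K] : ∃ T : ℝ, 0 < T ∧ ∀ (Q : ℕ) (F : Finset (Ideal (𝓞 K) →*₀ ℂ))
    (mo : (Ideal (𝓞 K) →*₀ ℂ) → Ideal (𝓞 K)), Family Q F mo → ∀ (c : Ideal (𝓞 K)) (n : ℕ), c ≠ ⊥ →
    Ideal.absNorm c ≤ n → ∀ H : ℕ, 1 ≤ H → n * (Q ^ 2 * Ideal.absNorm (g2 K)) ≤ 6 * H →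
    ∀ w : (Ideal (𝓞 K) →*₀ ℂ) → ℂ,
    ∑ x ∈ Pool.Agent.Y722.HS.box (Ix K) H, ‖∑ ψ ∈ F, w ψ * fv (mo ψ) c ψ (toO x)‖ ^ 2 ≤
      T * (24 * (H : ℝ)) ^ Fintype.card (Ix K) * ∑ ψ ∈ F, ‖w ψ‖ ^ 2 := by
  classical
  let τ := ((K →+* ℝ) → Bool) → Bool
  have hfin : Fintype τ := Fintype.ofFinite τ
  refine ⟨(Fintype.card τ : ℝ) * (mK K + 1) + 1, by positivity, fun Q F mo h c n hc hcn H hH hL w => ?_⟩
  set box := Pool.Agent.Y722.HS.box (Ix K) H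
  have h1 : ∀ x ∈ box, ‖∑ ψ ∈ F, w ψ * fv (mo ψ) c ψ (toO x)‖ ^ 2 ≤
      (Fintype.card τ : ℝ) * ∑ t : τ, ‖∑ ψ ∈ F.filter (fun ψ => ty (mo ψ) ψ = t),
        w ψ * fv (mo ψ) c ψ (toO x)‖ ^ 2 := by
    intro x _
    have e1 : ∑ ψ ∈ F, w ψ * fv (mo ψ) c ψ (toO x) =
        ∑ t : τ, ∑ ψ ∈ F.filter (fun ψ => ty (mo ψ) ψ = t), w ψ * fv (mo ψ) c ψ (toO x) :=
      (sum_fiberwise F (fun ψ => ty (mo ψ) ψ) _).symm
    rw [e1]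
    have e2 := norm_sum_le (univ : Finset τ) (fun t => ∑ ψ ∈ F.filter (fun ψ => ty (mo ψ) ψ = t),
        w ψ * fv (mo ψ) c ψ (toO x))
    calc _ ≤ (∑ t : τ, ‖∑ ψ ∈ F.filter (fun ψ => ty (mo ψ) ψ = t), w ψ * fv (mo ψ) c ψ (toO x)‖) ^ 2 := by
          gcongr
      _ ≤ _ := by
          have := sq_sum_le_card_mul_sum_sq (s := (univ : Finset τ))
            (f := fun t => ‖∑ ψ ∈ F.filter (fun ψ => ty (mo ψ) ψ = t), w ψ * fv (mo ψ) c ψ (toO x)‖)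
          rwa [card_univ] at this
  refine (sum_le_sum h1).trans ?_
  rw [← mul_sum, sum_comm]
  have h2 : ∀ t : τ, ∑ x ∈ box, ‖∑ ψ ∈ F.filter (fun ψ => ty (mo ψ) ψ = t), w ψ * fv (mo ψ) c ψ (toO x)‖ ^ 2 ≤
      (24 * (H : ℝ)) ^ Fintype.card (Ix K) * mK K *
        ∑ ψ ∈ F.filter (fun ψ => ty (mo ψ) ψ = t), ‖w ψ‖ ^ 2 := by
    intro t
    have hm := h.mono (filter_subset (fun ψ => ty (mo ψ) ψ = t) F)
    refine dual_class hm.char (fun ψ hψ ψ' hψ' => ?_) hm.ineq hc hH (fun ψ hψ ψ' hψ' => ?_) w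
    · rw [mem_filter] at hψ hψ'
      rw [hψ.2, hψ'.2]
    · exact (absNorm_le hm hcn ψ hψ ψ' hψ').trans hL
  calc (Fintype.card τ : ℝ) * ∑ t : τ, ∑ x ∈ box,
        ‖∑ ψ ∈ F.filter (fun ψ => ty (mo ψ) ψ = t), w ψ * fv (mo ψ) c ψ (toO x)‖ ^ 2 ≤
      (Fintype.card τ : ℝ) * ∑ t : τ, (24 * (H : ℝ)) ^ Fintype.card (Ix K) * mK K *
        ∑ ψ ∈ F.filter (fun ψ => ty (mo ψ) ψ = t), ‖w ψ‖ ^ 2 := by
        gcongr with t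
        exact h2 t
    _ = (Fintype.card τ : ℝ) * mK K * (24 * (H : ℝ)) ^ Fintype.card (Ix K) * ∑ ψ ∈ F, ‖w ψ‖ ^ 2 := by
        rw [← mul_sum, sum_fiberwise F (fun ψ => ty (mo ψ) ψ) (fun ψ => ‖w ψ‖ ^ 2)]
        ring
    _ ≤ _ := by
        gcongr
        nlinarith [show (0 : ℝ) ≤ (Fintype.card τ : ℝ) by positivity, show (0 : ℝ) ≤ mK K by positivity]

/-- **The dual large sieve inequality.** -/
theorem dual_ls (K : Type) [Field K] [NumberField K] : ∃ C : ℝ, 0 < C ∧ ∀ (Q X : ℕ), 1 ≤ Q → 1 ≤ X →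
    ∀ (F : Finset (Ideal (𝓞 K) →*₀ ℂ)) (mo : (Ideal (𝓞 K) →*₀ ℂ) → Ideal (𝓞 K)), Family Q F mo →
    ∀ A : Finset (Ideal (𝓞 K)), (∀ a ∈ A, a ≠ ⊥ ∧ IsCoprime a (g2 K) ∧ Ideal.absNorm a ≤ X) →
    ∀ w : (Ideal (𝓞 K) →*₀ ℂ) → ℂ,
    ∑ a ∈ A, ‖∑ ψ ∈ F, w ψ * ψ a‖ ^ 2 ≤
      C * ((X : ℝ) + (Q : ℝ) ^ (2 * Module.finrank ℚ K)) * ∑ ψ ∈ F, ‖w ψ‖ ^ 2 := by
  classical
  obtain ⟨T, hT, hdual⟩ := dual_types K
  obtain ⟨c, hc0, hc⟩ := exists_reps (K := K)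
  obtain ⟨C1, hC1, hgen⟩ := small_generator K
  set d := Module.finrank ℚ K with hd
  have hd0 : 0 < d := Module.finrank_pos
  have hd0' : (d : ℝ) ≠ 0 := by exact_mod_cast hd0.ne'
  obtain ⟨n, hcn⟩ : ∃ n : ℕ, ∀ g, Ideal.absNorm (c g) ≤ n := ⟨∑ g, Ideal.absNorm (c g), fun g =>
    single_le_sum (f := fun g => Ideal.absNorm (c g)) (fun _ _ => Nat.zero_le _) (mem_univ g)⟩
  have hn1 : 1 ≤ n := by
    refine le_trans ?_ (hcn 1)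
    rw [Nat.one_le_iff_ne_zero, Ne, Ideal.absNorm_eq_zero_iff]
    exact hc0 1
  obtain ⟨q2, hq2⟩ : ∃ q2 : ℕ, Ideal.absNorm (g2 K) = q2 := ⟨_, rfl⟩
  rw [hq2] at hdual
  obtain ⟨C2, hC2⟩ : ∃ C2 : ℝ, C2 = C1 * (n : ℝ) + 1 + n * q2 := ⟨_, rfl⟩
  have hC20 : 0 < C2 := by
    rw [hC2]
    positivity
  refine ⟨T * (Fintype.card (ClassGroup (𝓞 K)) : ℝ) * (24 * (2 * C2)) ^ d + 1, by positivity,
    fun Q X hQ hX F mo h A hA w => ?_⟩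
  have hX1 : (1 : ℝ) ≤ X := by exact_mod_cast hX
  have hQ1 : (1 : ℝ) ≤ Q := by exact_mod_cast hQ
  have hn1' : (1 : ℝ) ≤ n := by exact_mod_cast hn1
  -- the parameters
  set Y : ℝ := ((n : ℝ) * X) ^ (1 / (d : ℝ)) with hY
  have hY0 : 0 < Y := by positivity
  have hYd : Y ^ d = (n : ℝ) * X := by
    rw [hY, ← Real.rpow_natCast, ← Real.rpow_mul (by positivity), one_div, inv_mul_cancel₀ hd0',
      Real.rpow_one]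
  set Z : ℝ := (X : ℝ) ^ (1 / (d : ℝ)) with hZ
  have hZ1 : 1 ≤ Z := Real.one_le_rpow hX1 (by positivity)
  have hZd : Z ^ d = (X : ℝ) := by
    rw [hZ, ← Real.rpow_natCast, ← Real.rpow_mul (by positivity), one_div, inv_mul_cancel₀ hd0',
      Real.rpow_one]
  have hYZ : Y ≤ n * Z := by
    rw [hY, Real.mul_rpow (by positivity) (by positivity)]
    have h1 : (n : ℝ) ^ (1 / (d : ℝ)) ≤ (n : ℝ) ^ (1 : ℝ) := by
      apply Real.rpow_le_rpow_of_exponent_le hn1'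
      rw [div_le_one (by positivity)]
      exact_mod_cast hd0
    rw [Real.rpow_one] at h1
    gcongr
  set H : ℕ := ⌈C1 * Y⌉₊ + n * (Q ^ 2 * q2) with hH
  have hH1 : 1 ≤ H := by
    have : 0 < ⌈C1 * Y⌉₊ := Nat.ceil_pos.mpr (by positivity)
    omega
  have hHL : n * (Q ^ 2 * q2) ≤ 6 * H := by omega
  have hHY : C1 * Y ≤ H := by
    have h1 := Nat.le_ceil (C1 * Y)
    have h2 : ((⌈C1 * Y⌉₊ : ℕ) : ℝ) ≤ H := by exact_mod_cast (by omega : ⌈C1 * Y⌉₊ ≤ H)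
    linarith
  have hHup : (H : ℝ) ≤ C2 * (Z + (Q : ℝ) ^ 2) := by
    have h1 := (Nat.ceil_lt_add_one (a := C1 * Y) (by positivity)).le
    have h2 : (H : ℝ) = (⌈C1 * Y⌉₊ : ℝ) + n * ((Q : ℝ) ^ 2 * q2) := by rw [hH]; push_cast; rfl
    have h3 : C1 * Y ≤ C1 * (n * Z) := by gcongr
    have h4 : (0 : ℝ) ≤ (Q : ℝ) ^ 2 := by positivity
    have h5 : (0 : ℝ) ≤ (n : ℝ) * q2 := by positivity
    have h6 : (0 : ℝ) ≤ C1 * n := by positivity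
    rw [h2, hC2]
    nlinarith [mul_nonneg h5 (by linarith : (0 : ℝ) ≤ Z), mul_nonneg h6 h4]
  have hHd : (24 * (H : ℝ)) ^ d ≤ (24 * (2 * C2)) ^ d * ((X : ℝ) + (Q : ℝ) ^ (2 * d)) := by
    have h1 : (24 * (H : ℝ)) ≤ (24 * (2 * C2)) * max Z ((Q : ℝ) ^ 2) := by
      have h2 : Z + (Q : ℝ) ^ 2 ≤ 2 * max Z ((Q : ℝ) ^ 2) := by
        have := le_max_left Z ((Q : ℝ) ^ 2)
        have := le_max_right Z ((Q : ℝ) ^ 2)
        linarith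
      nlinarith
    calc (24 * (H : ℝ)) ^ d ≤ ((24 * (2 * C2)) * max Z ((Q : ℝ) ^ 2)) ^ d := by gcongr
      _ = (24 * (2 * C2)) ^ d * (max Z ((Q : ℝ) ^ 2)) ^ d := mul_pow _ _ _
      _ ≤ _ := by
          gcongr
          rcases le_total Z ((Q : ℝ) ^ 2) with h3 | h3
          · rw [max_eq_right h3, ← pow_mul]
            linarith
          · rw [max_eq_left h3, hZd]
            have : (0 : ℝ) ≤ (Q : ℝ) ^ (2 * d) := by positivity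
            linarith
  -- the generators
  set box := Pool.Agent.Y722.HS.box (Ix K) H with hbox
  have hgen' : ∀ a : Ideal (𝓞 K), ∃ gx : ClassGroup (𝓞 K) × (Ix K → ℤ), a ∈ A →
      gx.2 ∈ box ∧ Ideal.span {toO gx.2} = c gx.1 * a := by
    intro a
    by_cases ha : a ∈ A
    · obtain ⟨ha0, -, haX⟩ := hA a ha
      obtain ⟨g, y, hy0, hy⟩ := hc a ha0
      obtain ⟨y', hy', -, hy'c⟩ := hgen y Y hy0 hY0 (by
        rw [hYd, hy, map_mul]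
        push_cast
        have h1 : (Ideal.absNorm (c g) : ℝ) ≤ n := by exact_mod_cast hcn g
        have h2 : (Ideal.absNorm a : ℝ) ≤ X := by exact_mod_cast haX
        gcongr)
      refine ⟨(g, co y'), fun _ => ⟨?_, ?_⟩⟩
      · rw [hbox, Pool.Agent.Y722.HS.box, Fintype.mem_piFinset]
        intro i
        unfold Pool.Agent.Y722.HS.IH
        rw [mem_Icc, ← abs_le]
        have h1 : |((RingOfIntegers.basis K).repr y' i : ℝ)| ≤ H := (hy'c i).trans hHY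
        exact_mod_cast h1
      · simp only
        rw [toO_co, hy', hy]
    · exact ⟨(1, 0), fun h => absurd h ha⟩
  choose σ hσ using hgen'
  have hval : ∀ a ∈ A, ‖∑ ψ ∈ F, w ψ * ψ a‖ ^ 2 =
      ‖∑ ψ ∈ F, w ψ * fv (mo ψ) (c (σ a).1) ψ (toO (σ a).2)‖ ^ 2 := by
    intro a ha
    congr 2
    refine sum_congr rfl fun ψ hψ => ?_
    congr 1
    obtain ⟨-, ha2, -⟩ := hA a ha
    by_cases hco : IsCoprime a (mo ψ)
    · rw [fv_eq ψ (hc0 _) (hσ a ha).2 (hco.mul_right ha2)]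
    · rw [fv_zero ψ (hc0 _) (hσ a ha).2 (fun h => hco (IsCoprime.of_mul_right_left h)),
        (h.char ψ hψ).zero a hco]
  have hinj : Set.InjOn σ (A : Set (Ideal (𝓞 K))) := by
    intro a ha b hb hab
    have h1 := (hσ a ha).2
    have h2 := (hσ b hb).2
    rw [← hab, h1] at h2
    exact mul_left_cancel₀ (hc0 _) h2
  have hsum : ∑ a ∈ A, ‖∑ ψ ∈ F, w ψ * ψ a‖ ^ 2 ≤ ∑ g : ClassGroup (𝓞 K), ∑ x ∈ box,
      ‖∑ ψ ∈ F, w ψ * fv (mo ψ) (c g) ψ (toO x)‖ ^ 2 := by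
    rw [sum_congr rfl hval, ← sum_product']
    rw [← sum_image (f := fun gx : ClassGroup (𝓞 K) × (Ix K → ℤ) =>
      ‖∑ ψ ∈ F, w ψ * fv (mo ψ) (c gx.1) ψ (toO gx.2)‖ ^ 2) hinj]
    refine sum_le_sum_of_subset_of_nonneg ?_ fun _ _ _ => by positivity
    intro gx hgx
    rw [mem_image] at hgx
    obtain ⟨a, ha, rfl⟩ := hgx
    rw [mem_product]
    exact ⟨mem_univ _, (hσ a ha).1⟩
  have hS0 : 0 ≤ ∑ ψ ∈ F, ‖w ψ‖ ^ 2 := sum_nonneg fun _ _ => by positivity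
  have hXQ : 0 ≤ (X : ℝ) + (Q : ℝ) ^ (2 * d) := by positivity
  calc ∑ a ∈ A, ‖∑ ψ ∈ F, w ψ * ψ a‖ ^ 2 ≤ _ := hsum
    _ ≤ ∑ _g : ClassGroup (𝓞 K), T * (24 * (H : ℝ)) ^ Fintype.card (Ix K) * ∑ ψ ∈ F, ‖w ψ‖ ^ 2 :=
        sum_le_sum fun g _ => hdual Q F mo h (c g) n (hc0 g) (hcn g) H hH1 hHL w
    _ = (Fintype.card (ClassGroup (𝓞 K)) : ℝ) * (T * (24 * (H : ℝ)) ^ d * ∑ ψ ∈ F, ‖w ψ‖ ^ 2) := by
        rw [sum_const, card_univ, nsmul_eq_mul, card_Ix]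
    _ ≤ (Fintype.card (ClassGroup (𝓞 K)) : ℝ) * (T * ((24 * (2 * C2)) ^ d *
          ((X : ℝ) + (Q : ℝ) ^ (2 * d))) * ∑ ψ ∈ F, ‖w ψ‖ ^ 2) := by gcongr
    _ = T * (Fintype.card (ClassGroup (𝓞 K)) : ℝ) * (24 * (2 * C2)) ^ d *
          ((X : ℝ) + (Q : ℝ) ^ (2 * d)) * ∑ ψ ∈ F, ‖w ψ‖ ^ 2 := by ring
    _ ≤ _ := by
        gcongr
        linarith

/-- **The large sieve inequality** for ray class characters. -/
theorem large_sieve (K : Type) [Field K] [NumberField K] : ∃ C : ℝ, 0 < C ∧ ∀ (Q X : ℕ), 1 ≤ Q → 1 ≤ X →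
    ∀ (F : Finset (Ideal (𝓞 K) →*₀ ℂ)) (mo : (Ideal (𝓞 K) →*₀ ℂ) → Ideal (𝓞 K)), Family Q F mo →
    ∀ A : Finset (Ideal (𝓞 K)), (∀ a ∈ A, a ≠ ⊥ ∧ IsCoprime a (g2 K) ∧ Ideal.absNorm a ≤ X) →
    ∀ b : Ideal (𝓞 K) → ℂ,
    ∑ ψ ∈ F, ‖∑ a ∈ A, b a * ψ a‖ ^ 2 ≤
      C * ((X : ℝ) + (Q : ℝ) ^ (2 * Module.finrank ℚ K)) * ∑ a ∈ A, ‖b a‖ ^ 2 := by
  classical
  obtain ⟨C, hC, h⟩ := dual_ls K
  refine ⟨C, hC, fun Q X hQ hX F mo hF A hA b => ?_⟩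
  set Δ : ℝ := C * ((X : ℝ) + (Q : ℝ) ^ (2 * Module.finrank ℚ K)) with hΔ
  have hΔ0 : 0 ≤ Δ := by positivity
  set S : ℝ := ∑ ψ ∈ F, ‖∑ a ∈ A, b a * ψ a‖ ^ 2 with hS
  have hS0 : 0 ≤ S := sum_nonneg fun _ _ => by positivity
  set w : (Ideal (𝓞 K) →*₀ ℂ) → ℂ := fun ψ => (starRingEnd ℂ) (∑ a ∈ A, b a * ψ a) with hw
  have h1 := h Q X hQ hX F mo hF A hA w
  have e1 : ∑ ψ ∈ F, ‖w ψ‖ ^ 2 = S := by
    rw [hS]
    refine sum_congr rfl fun ψ _ => ?_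
    rw [hw]
    simp only
    rw [RCLike.norm_conj]
  rw [e1, ← hΔ] at h1
  have e2 : ((S : ℝ) : ℂ) = ∑ a ∈ A, b a * ∑ ψ ∈ F, w ψ * ψ a := by
    rw [hS]
    push_cast
    simp only [mul_sum]
    rw [sum_comm]
    refine sum_congr rfl fun ψ _ => ?_
    rw [← Complex.mul_conj', mul_comm, mul_sum]
    refine sum_congr rfl fun a _ => ?_
    rw [hw]
    ring
  have h2 : S ≤ ∑ a ∈ A, ‖b a‖ * ‖∑ ψ ∈ F, w ψ * ψ a‖ := by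
    have h3 : S = ‖((S : ℝ) : ℂ)‖ := by rw [Complex.norm_real, Real.norm_of_nonneg hS0]
    rw [h3, e2]
    refine (norm_sum_le _ _).trans (sum_le_sum fun a _ => ?_)
    rw [norm_mul]
  have h3 : S ^ 2 ≤ (∑ a ∈ A, ‖b a‖ ^ 2) * (Δ * S) := by
    calc S ^ 2 ≤ (∑ a ∈ A, ‖b a‖ * ‖∑ ψ ∈ F, w ψ * ψ a‖) ^ 2 := by gcongr
      _ ≤ (∑ a ∈ A, ‖b a‖ ^ 2) * ∑ a ∈ A, ‖∑ ψ ∈ F, w ψ * ψ a‖ ^ 2 := sum_mul_sq_le_sq_mul_sq _ _ _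
      _ ≤ _ := by gcongr
  rcases hS0.eq_or_lt with h4 | h4
  · rw [← h4]
    exact mul_nonneg hΔ0 (sum_nonneg fun _ _ => by positivity)
  · have h5 : S * S ≤ (Δ * ∑ a ∈ A, ‖b a‖ ^ 2) * S := by nlinarith
    exact le_of_mul_le_mul_right h5 h4

end Pool.Agent.H11.RC
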