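import Mathlib
import Pool.Agent.H11.RC.Large

/-!
# High moments of prime sums twisted by ray class characters
-/

set_option autoImplicit false

open Finset

namespace Pool.Agent.H11.RC

open NumberField IsDedekindDomain

variable {K : Type} [Field K] [NumberField K]

/-- the product of the primes of a tuple -/
noncomputable def pr {k : ℕ} (t : Fin k → HeightOneSpectrum (𝓞 K)) : Ideal (𝓞 K) := ∏ i, (t i).asIdeal

open Classical in
/-- the coefficients of the k-th power of a sum over primes -/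
noncomputable def cf (P : Finset (HeightOneSpectrum (𝓞 K))) (k : ℕ) (z : HeightOneSpectrum (𝓞 K) → ℂ)
    (a : Ideal (𝓞 K)) : ℂ :=
  ∑ t ∈ (Fintype.piFinset (fun _ : Fin k => P)).filter (fun t => pr t = a), ∏ i, z (t i)

open Classical in
/-- the products of k primes -/
noncomputable def AA (P : Finset (HeightOneSpectrum (𝓞 K))) (k : ℕ) : Finset (Ideal (𝓞 K)) :=
  (Fintype.piFinset (fun _ : Fin k => P)).image pr

theorem pow_expand (P : Finset (HeightOneSpectrum (𝓞 K))) (k : ℕ) (z : HeightOneSpectrum (𝓞 K) → ℂ)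
    (ψ : Ideal (𝓞 K) →*₀ ℂ) :
    (∑ v ∈ P, z v * ψ v.asIdeal) ^ k = ∑ a ∈ AA P k, cf P k z a * ψ a := by
  classical
  rw [Finset.sum_pow']
  rw [← Finset.sum_fiberwise_of_maps_to (g := fun t : Fin k → HeightOneSpectrum (𝓞 K) => pr t) (t := AA P k)
    (fun t ht => mem_image_of_mem _ ht)]
  refine Finset.sum_congr rfl (fun a _ => ?_)
  rw [cf, Finset.sum_mul]
  refine Finset.sum_congr rfl (fun t ht => ?_)
  rw [Finset.mem_filter] at ht
  rw [Finset.prod_mul_distrib, ← ht.2, pr, map_prod]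

theorem card_fiber (P : Finset (HeightOneSpectrum (𝓞 K))) (k : ℕ) (a : Ideal (𝓞 K)) :
    (by classical exact ((Fintype.piFinset (fun _ : Fin k => P)).filter (fun t => pr t = a)).card) ≤ k ^ k := by
  classical
  by_cases hne : ((Fintype.piFinset (fun _ : Fin k => P)).filter (fun t => pr t = a)).Nonempty
  · obtain ⟨t0, ht0⟩ := hne
    rw [mem_filter] at ht0
    have hsub : (Fintype.piFinset (fun _ : Fin k => P)).filter (fun t => pr t = a) ⊆
        Fintype.piFinset (fun _ : Fin k => univ.image t0) := by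
      intro t ht
      rw [mem_filter] at ht
      rw [Fintype.mem_piFinset]
      intro i
      have h1 : (t i).asIdeal ∣ ∏ j, (t0 j).asIdeal := by
        have h2 : pr t = pr t0 := ht.2.trans ht0.2.symm
        unfold pr at h2
        rw [← h2]
        exact dvd_prod_of_mem _ (mem_univ i)
      rw [(t i).prime.dvd_finsetProd_iff] at h1
      obtain ⟨j, -, hj⟩ := h1
      rw [mem_image]
      refine ⟨j, mem_univ _, ?_⟩
      apply HeightOneSpectrum.ext
      have h3 := Ideal.le_of_dvd hj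
      exact ((t0 j).isMaximal.eq_of_le (t i).isMaximal.ne_top h3)
    have h1 : ((Fintype.piFinset (fun _ : Fin k => P)).filter (fun t => pr t = a)).card ≤
        (Fintype.piFinset (fun _ : Fin k => univ.image t0)).card := card_le_card hsub
    have h2 : (Fintype.piFinset (fun _ : Fin k => univ.image t0)).card ≤ k ^ k := by
      rw [Fintype.card_piFinset]
      simp only [prod_const, card_univ, Fintype.card_fin]
      refine Nat.pow_le_pow_left ?_ k
      calc (univ.image t0).card ≤ (univ : Finset (Fin k)).card := card_image_le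
        _ = k := by simp
    convert h1.trans h2
  · rw [not_nonempty_iff_eq_empty] at hne
    have : ((Fintype.piFinset (fun _ : Fin k => P)).filter (fun t => pr t = a)).card ≤ k ^ k := by
      rw [hne, card_empty]
      exact Nat.zero_le _
    convert this

theorem sum_cf_sq (P : Finset (HeightOneSpectrum (𝓞 K))) (k : ℕ) (z : HeightOneSpectrum (𝓞 K) → ℂ) :
    ∑ a ∈ AA P k, ‖cf P k z a‖ ^ 2 ≤ (k : ℝ) ^ k * (∑ v ∈ P, ‖z v‖ ^ 2) ^ k := by
  classical
  have h1 : ∀ a ∈ AA P k, ‖cf P k z a‖ ^ 2 ≤ (k : ℝ) ^ k *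
      ∑ t ∈ (Fintype.piFinset (fun _ : Fin k => P)).filter (fun t => pr t = a),
        ∏ i, ‖z (t i)‖ ^ 2 := by
    intro a _
    rw [cf]
    have h2 : ‖∑ t ∈ (Fintype.piFinset (fun _ : Fin k => P)).filter (fun t => pr t = a),
        ∏ i, z (t i)‖ ^ 2 ≤ (∑ t ∈ (Fintype.piFinset (fun _ : Fin k => P)).filter
          (fun t => pr t = a), ∏ i, ‖z (t i)‖) ^ 2 := by
      gcongr
      refine (norm_sum_le _ _).trans (sum_le_sum fun t _ => ?_)
      rw [norm_prod]
    refine h2.trans ?_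
    refine sq_sum_le_card_mul_sum_sq.trans ?_
    have h3 : (((Fintype.piFinset (fun _ : Fin k => P)).filter (fun t => pr t = a)).card : ℝ) ≤
        (k : ℝ) ^ k := by
      have := card_fiber P k a
      exact_mod_cast this
    have h4 : ∑ t ∈ (Fintype.piFinset (fun _ : Fin k => P)).filter (fun t => pr t = a),
        (∏ i, ‖z (t i)‖) ^ 2 = ∑ t ∈ (Fintype.piFinset (fun _ : Fin k => P)).filter
          (fun t => pr t = a), ∏ i, ‖z (t i)‖ ^ 2 := by
      refine sum_congr rfl fun t _ => ?_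
      rw [prod_pow]
    rw [h4]
    exact mul_le_mul_of_nonneg_right h3 (sum_nonneg fun t _ => prod_nonneg fun i _ => by positivity)
  refine (sum_le_sum h1).trans ?_
  rw [← mul_sum]
  refine mul_le_mul_of_nonneg_left ?_ (by positivity)
  rw [Finset.sum_fiberwise_of_maps_to (g := fun t : Fin k → HeightOneSpectrum (𝓞 K) => pr t) (t := AA P k)
    (fun t ht => mem_image_of_mem _ ht), Finset.sum_pow']

/-- **Moments.** -/
theorem moment (K : Type) [Field K] [NumberField K] : ∃ C : ℝ, 0 < C ∧ ∀ (Q k M : ℕ), 1 ≤ Q → 1 ≤ M →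
    ∀ (F : Finset (Ideal (𝓞 K) →*₀ ℂ)) (mo : (Ideal (𝓞 K) →*₀ ℂ) → Ideal (𝓞 K)), Family Q F mo →
    ∀ P : Finset (HeightOneSpectrum (𝓞 K)),
      (∀ v ∈ P, IsCoprime v.asIdeal (g2 K) ∧ Ideal.absNorm v.asIdeal ≤ M) →
    ∀ z : HeightOneSpectrum (𝓞 K) → ℂ,
    ∑ ψ ∈ F, ‖∑ v ∈ P, z v * ψ v.asIdeal‖ ^ (2 * k) ≤
      C * ((M : ℝ) ^ k + (Q : ℝ) ^ (2 * Module.finrank ℚ K)) *
        ((k : ℝ) ^ k * (∑ v ∈ P, ‖z v‖ ^ 2) ^ k) := by
  classical
  obtain ⟨C, hC, h⟩ := large_sieve K
  refine ⟨C, hC, fun Q k M hQ hM F mo hF P hP z => ?_⟩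
  have h1 := h Q (M ^ k) hQ (Nat.one_le_pow _ _ (by omega)) F mo hF (AA P k) (by
    intro a ha
    rw [AA, mem_image] at ha
    obtain ⟨t, ht, rfl⟩ := ha
    rw [Fintype.mem_piFinset] at ht
    refine ⟨?_, ?_, ?_⟩
    · exact Finset.prod_ne_zero_iff.mpr fun i _ => (t i).ne_bot
    · exact IsCoprime.prod_left fun i _ => (hP _ (ht i)).1
    · unfold pr
      rw [map_prod]
      calc ∏ i, Ideal.absNorm (t i).asIdeal ≤ ∏ _i : Fin k, M :=
            Finset.prod_le_prod' fun i _ => (hP _ (ht i)).2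
        _ = M ^ k := by simp) (cf P k z)
  have h2 := sum_cf_sq P k z
  have e : ∀ ψ ∈ F, ‖∑ v ∈ P, z v * ψ v.asIdeal‖ ^ (2 * k) =
      ‖∑ a ∈ AA P k, cf P k z a * ψ a‖ ^ 2 := by
    intro ψ _
    rw [← pow_expand P k z ψ, norm_pow, ← pow_mul, mul_comm]
  rw [sum_congr rfl e]
  push_cast at h1
  refine h1.trans ?_
  gcongr

end Pool.Agent.H11.RC
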