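import Mathlib
import Pool.Agent.H11.RC.Moment
import Pool.Agent.H11.TC.Det

/-!
# The number of the ray class characters with a large sum over a dyadic block of primes
-/

set_option autoImplicit false

open Finset

namespace Pool.Agent.H11.RC

open NumberField IsDedekindDomain
open Pool.Agent.H921R2.TatePole (nm below deg nm_eq fiber_card_le two_le_nm)
open Pool.Agent.H11.TC (blk mem_blk card_blk norm_cpow norm_cpow_le kk kk_le gp grid gp_re card_grid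
  exists_grid cpow_lip log_div_le)

variable {K : Type} [Field K] [NumberField K]

/-- the primes above a prime number -/
noncomputable def fibP (p : Nat.Primes) : Finset (HeightOneSpectrum (𝓞 K)) :=
  (univ : Finset {v : HeightOneSpectrum (𝓞 K) // below v = p}).map ⟨Subtype.val, Subtype.val_injective⟩

theorem mem_fibP {p : Nat.Primes} {v : HeightOneSpectrum (𝓞 K)} : v ∈ fibP p ↔ below v = p := by
  unfold fibP
  rw [mem_map]
  constructor
  · rintro ⟨w, -, rfl⟩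
    exact w.2
  · intro hv
    exact ⟨⟨v, hv⟩, mem_univ _, rfl⟩

theorem sum_fibP (p : Nat.Primes) (g : HeightOneSpectrum (𝓞 K) → ℂ) :
    ∑ v ∈ fibP p, g v = ∑ v : {v : HeightOneSpectrum (𝓞 K) // below v = p}, g v.1 := by
  unfold fibP
  rw [sum_map]
  rfl

theorem card_fibP (p : Nat.Primes) : (fibP (K := K) p).card ≤ Module.finrank ℚ K := by
  unfold fibP
  rw [card_map, card_univ]
  exact fiber_card_le (K := K) _

open Classical in
/-- the primes above a natural number -/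
noncomputable def fib (K : Type) [Field K] [NumberField K] (p : ℕ) : Finset (HeightOneSpectrum (𝓞 K)) :=
  if h : p.Prime then fibP ⟨p, h⟩ else ∅

theorem mem_fib {p : ℕ} {v : HeightOneSpectrum (𝓞 K)} : v ∈ fib K p ↔ (below v : ℕ) = p := by
  classical
  unfold fib
  split_ifs with h
  · exact (mem_fibP (p := ⟨p, h⟩)).trans ⟨fun hv => congrArg Subtype.val hv, fun hv => Subtype.ext hv⟩
  · constructor
    · intro hv
      simp at hv
    · intro hv
      exact absurd (hv ▸ (below v).2) h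

theorem card_fib (p : ℕ) : (fib K p).card ≤ Module.finrank ℚ K := by
  classical
  unfold fib
  split_ifs with h
  · exact card_fibP _
  · rw [card_empty]
    exact Nat.zero_le _

open Classical in
/-- the primes of degree one of norm between `2 ^ j` and `2 ^ (j + 1)` -/
noncomputable def V (K : Type) [Field K] [NumberField K] (j : ℕ) : Finset (HeightOneSpectrum (𝓞 K)) :=
  ((blk j).biUnion (fib K)).filter fun v => deg v = 1

theorem mem_V {j : ℕ} {v : HeightOneSpectrum (𝓞 K)} : v ∈ V K j ↔ (below v : ℕ) ∈ blk j ∧ deg v = 1 := by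
  classical
  unfold V
  rw [mem_filter, mem_biUnion]
  constructor
  · rintro ⟨⟨p, hp, hv⟩, hd⟩
    rw [mem_fib] at hv
    exact ⟨hv ▸ hp, hd⟩
  · rintro ⟨h1, h2⟩
    exact ⟨⟨_, h1, mem_fib.mpr rfl⟩, h2⟩

theorem card_V (j : ℕ) : ((V K j).card : ℝ) ≤ Module.finrank ℚ K * 2 ^ j := by
  classical
  have h1 : (V K j).card ≤ (blk j).card * Module.finrank ℚ K := by
    unfold V
    refine (card_filter_le _ _).trans (card_biUnion_le.trans ?_)
    rw [← smul_eq_mul, ← sum_const]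
    exact sum_le_sum fun p _ => card_fib p
  have h2 := card_blk j
  calc ((V K j).card : ℝ) ≤ ((blk j).card : ℝ) * Module.finrank ℚ K := by exact_mod_cast h1
    _ ≤ 2 ^ j * Module.finrank ℚ K := by gcongr
    _ = _ := mul_comm _ _

theorem nm_V {j : ℕ} {v : HeightOneSpectrum (𝓞 K)} (hv : v ∈ V K j) :
    Ideal.absNorm v.asIdeal = (below v : ℕ) := by
  have h := (nm_eq v).1
  rw [(mem_V.mp hv).2, pow_one] at h
  exact h

theorem coprime_two {v : HeightOneSpectrum (𝓞 K)} (h : (below v : ℕ) ≠ 2) : IsCoprime v.asIdeal (g2 K) := by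
  rw [Ideal.isCoprime_iff_sup_eq]
  by_contra hcon
  have h1 : g2 K ≤ v.asIdeal := by
    by_contra hle
    apply hcon
    have h2 : v.asIdeal < v.asIdeal ⊔ g2 K := lt_of_le_of_ne le_sup_left fun h => hle (by
      rw [h]
      exact le_sup_right)
    exact v.isMaximal.1.2 _ h2
  have h2 : (2 : 𝓞 K) ∈ v.asIdeal := h1 (Ideal.mem_span_singleton_self _)
  have h3 : (((below v : ℕ) : 𝓞 K)) ∈ v.asIdeal := (nm_eq v).2.2
  have h4 : Nat.Coprime (below v : ℕ) 2 := (Nat.coprime_primes (below v).2 Nat.prime_two).mpr h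
  have h5 : IsCoprime ((below v : ℕ) : ℤ) (2 : ℤ) := by exact_mod_cast Nat.isCoprime_iff_coprime.mpr h4
  obtain ⟨a, b, hab⟩ := h5
  have h6 : (1 : 𝓞 K) = (a : 𝓞 K) * ((below v : ℕ) : 𝓞 K) + (b : 𝓞 K) * 2 := by
    have := congrArg (fun n : ℤ => (n : 𝓞 K)) hab
    push_cast at this
    exact this.symm
  have h7 : (1 : 𝓞 K) ∈ v.asIdeal := by
    rw [h6]
    exact v.asIdeal.add_mem (v.asIdeal.mul_mem_left _ h3) (v.asIdeal.mul_mem_left _ h2)
  exact v.isPrime.ne_top ((Ideal.eq_top_iff_one _).mpr h7)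

/-- the sum over a block -/
noncomputable def Z (a : HeightOneSpectrum (𝓞 K) → ℂ) (j : ℕ) (ψ : Ideal (𝓞 K) →*₀ ℂ) (u : ℂ) : ℂ :=
  ∑ v ∈ V K j, (a v * ((below v : ℕ) : ℂ) ^ (-(1 + u))) * ψ v.asIdeal

theorem sum_sq_le {a : HeightOneSpectrum (𝓞 K) → ℂ} {B : ℝ} (hB : 0 ≤ B) (ha : ∀ v, ‖a v‖ ≤ B) (j : ℕ) {u : ℂ}
    (hu : 0 ≤ u.re) :
    ∑ v ∈ V K j, ‖a v * ((below v : ℕ) : ℂ) ^ (-(1 + u))‖ ^ 2 ≤ Module.finrank ℚ K * B ^ 2 / 2 ^ j := by
  have h1 : ∀ v ∈ V K j, ‖a v * ((below v : ℕ) : ℂ) ^ (-(1 + u))‖ ^ 2 ≤ (B * (1 / 2 ^ j)) ^ 2 := by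
    intro v hv
    rw [norm_mul]
    have h1 := norm_cpow_le (mem_V.mp hv).1 hu
    have h2 := ha v
    gcongr
  refine (sum_le_sum h1).trans ?_
  rw [sum_const, nsmul_eq_mul]
  have h2 := card_V (K := K) j
  calc ((V K j).card : ℝ) * (B * (1 / 2 ^ j)) ^ 2 ≤ Module.finrank ℚ K * 2 ^ j * (B * (1 / 2 ^ j)) ^ 2 := by
        gcongr
    _ = _ := by
        field_simp

open Classical in
/-- the number of the characters of a family with a large sum -/
theorem card_big (K : Type) [Field K] [NumberField K] : ∃ C : ℝ, 0 < C ∧ ∀ (Q Q' j : ℕ), 1 ≤ Q → 1 ≤ j →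
    Q ^ Module.finrank ℚ K ≤ Q' →
    ∀ (F : Finset (Ideal (𝓞 K) →*₀ ℂ)) (mo : (Ideal (𝓞 K) →*₀ ℂ) → Ideal (𝓞 K)), Family Q F mo →
    ∀ (a : HeightOneSpectrum (𝓞 K) → ℂ) (B : ℝ), 0 ≤ B → (∀ v, ‖a v‖ ≤ B) → ∀ u : ℂ, 0 ≤ u.re →
    ((F.filter fun ψ => 1 / (2 * (j : ℝ) ^ 2) < ‖Z a j ψ u‖).card : ℝ) ≤
      C * (8 * (Module.finrank ℚ K * B ^ 2) * kk Q' j * (j : ℝ) ^ 4) ^ kk Q' j := by
  obtain ⟨C, hC, hmom⟩ := moment K
  refine ⟨2 * C, by positivity, fun Q Q' j hQ hj hQQ F mo hF a B hB0 ha u hu => ?_⟩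
  set d := Module.finrank ℚ K with hd
  set k := kk Q' j with hk
  have hj0 : (0 : ℝ) < j := by exact_mod_cast hj
  obtain ⟨lam, hlam⟩ : ∃ lam : ℝ, lam = 1 / (2 * (j : ℝ) ^ 2) := ⟨_, rfl⟩
  have hlam0 : 0 < lam := by rw [hlam]; positivity
  rw [← hlam]
  have h1 := hmom Q k (2 ^ (j + 1)) hQ Nat.one_le_two_pow F mo hF (V K j) (by
    intro v hv
    have hb := mem_blk.mp (mem_V.mp hv).1
    refine ⟨coprime_two ?_, ?_⟩
    · have : 2 ≤ 2 ^ j := by
        calc 2 = 2 ^ 1 := rfl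
          _ ≤ 2 ^ j := Nat.pow_le_pow_right (by norm_num) hj
      omega
    · rw [nm_V hv]
      exact hb.1.2) (fun v => a v * ((below v : ℕ) : ℂ) ^ (-(1 + u)))
  have h2 : ((F.filter fun ψ => lam < ‖Z a j ψ u‖).card : ℝ) * lam ^ (2 * k) ≤
      ∑ ψ ∈ F, ‖Z a j ψ u‖ ^ (2 * k) := by
    rw [← nsmul_eq_mul, ← sum_const]
    calc _ ≤ ∑ ψ ∈ F.filter (fun ψ => lam < ‖Z a j ψ u‖), ‖Z a j ψ u‖ ^ (2 * k) := by
          refine sum_le_sum fun ψ hψ => ?_
          rw [mem_filter] at hψ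
          have := hψ.2.le
          gcongr
      _ ≤ _ := sum_le_sum_of_subset_of_nonneg (filter_subset _ _) fun x _ _ => by positivity
  have h3 := sum_sq_le hB0 ha j hu
  have h4 : (Q : ℝ) ^ (2 * d) ≤ ((2 : ℝ) ^ (j + 1)) ^ k := by
    calc (Q : ℝ) ^ (2 * d) = ((Q : ℝ) ^ d) ^ 2 := by rw [mul_comm, pow_mul]
      _ ≤ (Q' : ℝ) ^ 2 := by
          gcongr
          exact_mod_cast hQQ
      _ ≤ _ := kk_le Q' j
  have h5 : ((F.filter fun ψ => lam < ‖Z a j ψ u‖).card : ℝ) * lam ^ (2 * k) ≤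
      2 * C * (2 * k * (d * B ^ 2)) ^ k := by
    refine (h2.trans h1).trans ?_
    push_cast
    calc C * (((2 : ℝ) ^ (j + 1)) ^ k + (Q : ℝ) ^ (2 * d)) *
          ((k : ℝ) ^ k * (∑ v ∈ V K j, ‖a v * ((below v : ℕ) : ℂ) ^ (-(1 + u))‖ ^ 2) ^ k) ≤
        C * (((2 : ℝ) ^ (j + 1)) ^ k + ((2 : ℝ) ^ (j + 1)) ^ k) * ((k : ℝ) ^ k * (d * B ^ 2 / 2 ^ j) ^ k) := by
          gcongr
      _ = 2 * C * ((2 : ℝ) ^ (j + 1) * k * (d * B ^ 2 / 2 ^ j)) ^ k := by
          rw [mul_pow, mul_pow]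
          ring
      _ = _ := by
          congr 2
          rw [pow_succ]
          field_simp
  have h6 : lam ^ (2 * k) = (1 / (4 * (j : ℝ) ^ 4)) ^ k := by
    rw [hlam, pow_mul]
    congr 1
    field_simp
    norm_num
  rw [h6] at h5
  have h7 : (0 : ℝ) < (1 / (4 * (j : ℝ) ^ 4)) ^ k := by positivity
  rw [← le_div_iff₀ h7] at h5
  refine h5.trans (le_of_eq ?_)
  rw [mul_div_assoc, ← div_pow]
  congr 2
  field_simp
  ring

theorem Z_lip {a : HeightOneSpectrum (𝓞 K) → ℂ} {B : ℝ} (hB : 0 ≤ B) (ha : ∀ v, ‖a v‖ ≤ B) (j : ℕ)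
    {𝔣 : Ideal (𝓞 K)} {ψ : Ideal (𝓞 K) →*₀ ℂ} (hψ : IsRayClassCharacter 𝔣 ψ) {u w : ℂ} (hu : 0 ≤ u.re)
    (hw : 0 ≤ w.re) :
    ‖Z a j ψ w - Z a j ψ u‖ ≤ Module.finrank ℚ K * B * (j + 1) * ‖w - u‖ := by
  unfold Z
  rw [← sum_sub_distrib]
  refine (norm_sum_le _ _).trans ?_
  have h1 : ∀ v ∈ V K j, ‖(a v * ((below v : ℕ) : ℂ) ^ (-(1 + w))) * ψ v.asIdeal -
      (a v * ((below v : ℕ) : ℂ) ^ (-(1 + u))) * ψ v.asIdeal‖ ≤ B * ((j + 1) / 2 ^ j * ‖w - u‖) := by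
    intro v hv
    have e : (a v * ((below v : ℕ) : ℂ) ^ (-(1 + w))) * ψ v.asIdeal -
      (a v * ((below v : ℕ) : ℂ) ^ (-(1 + u))) * ψ v.asIdeal =
      a v * (((below v : ℕ) : ℂ) ^ (-(1 + w)) - ((below v : ℕ) : ℂ) ^ (-(1 + u))) * ψ v.asIdeal := by ring
    rw [e, norm_mul, norm_mul]
    have hb := (mem_V.mp hv).1
    have h2 := cpow_lip (mem_blk.mp hb).2.pos hu hw
    have h3 := log_div_le hb
    have h4 := hψ.norm_le v.asIdeal
    calc ‖a v‖ * ‖((below v : ℕ) : ℂ) ^ (-(1 + w)) - ((below v : ℕ) : ℂ) ^ (-(1 + u))‖ * ‖ψ v.asIdeal‖ ≤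
        B * ((j + 1) / 2 ^ j * ‖w - u‖) * 1 := by
          have := ha v
          gcongr
          exact h2.trans (by gcongr)
      _ = _ := by ring
  refine (sum_le_sum h1).trans ?_
  rw [sum_const, nsmul_eq_mul]
  have h5 := card_V (K := K) j
  calc ((V K j).card : ℝ) * (B * ((j + 1) / 2 ^ j * ‖w - u‖)) ≤
      Module.finrank ℚ K * 2 ^ j * (B * ((j + 1) / 2 ^ j * ‖w - u‖)) := by gcongr
    _ = _ := by field_simp

/-- the bad characters -/
def Bad (j0 J M T : ℕ) (a : HeightOneSpectrum (𝓞 K) → ℂ) (ψ : Ideal (𝓞 K) →*₀ ℂ) : Prop :=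
  ∃ j ∈ Ico j0 J, ∃ g ∈ grid M T, 1 / (2 * (j : ℝ) ^ 2) < ‖Z a j ψ (gp M g)‖

/-- **The exceptional set.** -/
theorem exists_exc (K : Type) [Field K] [NumberField K] : ∃ C : ℝ, 0 < C ∧ ∀ (Q Q' j0 J M T : ℕ), 1 ≤ Q →
    1 ≤ j0 → Q ^ Module.finrank ℚ K ≤ Q' →
    ∀ (a : HeightOneSpectrum (𝓞 K) → ℂ) (B : ℝ), 0 ≤ B → (∀ v, ‖a v‖ ≤ B) → ∀ W : ℝ, 0 ≤ W →
    (∀ j ∈ Ico j0 J, (8 * (Module.finrank ℚ K * B ^ 2) * kk Q' j * (j : ℝ) ^ 4) ^ kk Q' j ≤ W) →
    ∃ E : Finset (Ideal (𝓞 K) →*₀ ℂ), (E.card : ℝ) ≤ C * (J * ((M + 1) * (2 * T * M + 1)) * W) ∧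
      ∀ (𝔣 : Ideal (𝓞 K)) (ψ : Ideal (𝓞 K) →*₀ ℂ), IsRayClassCharacter 𝔣 ψ → Ideal.absNorm 𝔣 ≤ Q →
        (∀ ψ' ∈ E, {v : HeightOneSpectrum (𝓞 K) | ψ v.asIdeal ≠ ψ' v.asIdeal}.Infinite) →
        ¬ Bad j0 J M T a ψ := by
  classical
  obtain ⟨C, hC, hbig⟩ := card_big K
  refine ⟨C, hC, fun Q Q' j0 J M T hQ hj0 hQQ a B hB ha W hW0 hW => ?_⟩
  set bd : ℝ := C * (J * ((M + 1) * (2 * T * M + 1)) * W) with hbd
  have hbd0 : 0 ≤ bd := by positivity
  -- the bound for families of bad characters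
  have hfam : ∀ (F : Finset (Ideal (𝓞 K) →*₀ ℂ)) (mo : (Ideal (𝓞 K) →*₀ ℂ) → Ideal (𝓞 K)), Family Q F mo →
      (∀ ψ ∈ F, Bad j0 J M T a ψ) → (F.card : ℝ) ≤ bd := by
    intro F mo hF hbadF
    have hsub : F ⊆ (Ico j0 J).biUnion fun j => (grid M T).biUnion fun g =>
        F.filter fun ψ => 1 / (2 * (j : ℝ) ^ 2) < ‖Z a j ψ (gp M g)‖ := by
      intro ψ hψ
      obtain ⟨j, hj, g, hg, h⟩ := hbadF ψ hψ
      rw [mem_biUnion]
      refine ⟨j, hj, ?_⟩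
      rw [mem_biUnion]
      refine ⟨g, hg, ?_⟩
      rw [mem_filter]
      exact ⟨hψ, h⟩
    have h1 := (card_le_card hsub).trans card_biUnion_le
    have h2 : (F.card : ℝ) ≤ ∑ j ∈ Ico j0 J, ∑ g ∈ grid M T, C * W := by
      calc (F.card : ℝ) ≤ ((∑ j ∈ Ico j0 J, ((grid M T).biUnion fun g =>
          F.filter fun ψ => 1 / (2 * (j : ℝ) ^ 2) < ‖Z a j ψ (gp M g)‖).card : ℕ) : ℝ) := by
            exact_mod_cast h1
        _ = ∑ j ∈ Ico j0 J, ((((grid M T).biUnion fun g =>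
          F.filter fun ψ => 1 / (2 * (j : ℝ) ^ 2) < ‖Z a j ψ (gp M g)‖).card : ℕ) : ℝ) := by
            push_cast
            rfl
        _ ≤ _ := by
            refine sum_le_sum fun j hj => ?_
            have h3 := card_biUnion_le (s := grid M T) (t := fun g =>
              F.filter fun ψ => 1 / (2 * (j : ℝ) ^ 2) < ‖Z a j ψ (gp M g)‖)
            calc _ ≤ ((∑ g ∈ grid M T, (F.filter fun ψ =>
                1 / (2 * (j : ℝ) ^ 2) < ‖Z a j ψ (gp M g)‖).card : ℕ) : ℝ) := by exact_mod_cast h3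
              _ = ∑ g ∈ grid M T, ((F.filter fun ψ =>
                1 / (2 * (j : ℝ) ^ 2) < ‖Z a j ψ (gp M g)‖).card : ℝ) := by push_cast; rfl
              _ ≤ _ := by
                  refine sum_le_sum fun g _ => ?_
                  refine (hbig Q Q' j hQ (hj0.trans (mem_Ico.mp hj).1) hQQ F mo hF a B hB ha _
                    (gp_re M g)).trans ?_
                  gcongr
                  exact hW j hj
    refine h2.trans ?_
    rw [sum_const, sum_const, nsmul_eq_mul, nsmul_eq_mul, card_grid, Nat.card_Ico]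
    push_cast
    have h4 : ((J - j0 : ℕ) : ℝ) ≤ J := by exact_mod_cast Nat.sub_le _ _
    calc ((J - j0 : ℕ) : ℝ) * (((M : ℝ) + 1) * (2 * T * M + 1) * (C * W)) ≤
        J * (((M : ℝ) + 1) * (2 * T * M + 1) * (C * W)) := by gcongr
      _ = _ := by rw [hbd]; ring
  -- a maximal family
  let S : Set ℕ := {n | ∃ (F : Finset (Ideal (𝓞 K) →*₀ ℂ)) (mo : (Ideal (𝓞 K) →*₀ ℂ) → Ideal (𝓞 K)),
    Family Q F mo ∧ (∀ ψ ∈ F, Bad j0 J M T a ψ) ∧ F.card = n}
  have hSbdd : BddAbove S := by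
    refine ⟨⌊bd⌋₊, ?_⟩
    rintro n ⟨F, mo, hF, hb, rfl⟩
    exact Nat.le_floor (hfam F mo hF hb)
  have hSne : S.Nonempty := ⟨0, ∅, fun _ => ⊥, ⟨by simp, by simp, by simp⟩, by simp, by simp⟩
  obtain ⟨F, mo, hF, hb, hcard⟩ := Nat.sSup_mem hSne hSbdd
  refine ⟨F, hfam F mo hF hb, fun 𝔣 ψ hψ hN hinf hbadψ => ?_⟩
  have hψF : ψ ∉ F := by
    intro h
    have := hinf ψ h
    simp at this
  set mo' : (Ideal (𝓞 K) →*₀ ℂ) → Ideal (𝓞 K) := fun φ => if φ = ψ then 𝔣 else mo φ with hmo'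
  have hmoF : ∀ φ ∈ F, mo' φ = mo φ := by
    intro φ hφ
    rw [hmo']
    simp only
    rw [if_neg]
    rintro rfl
    exact hψF hφ
  have hmoψ : mo' ψ = 𝔣 := by
    rw [hmo']
    simp
  have hF' : Family Q (insert ψ F) mo' := by
    refine ⟨?_, ?_, ?_⟩
    · intro φ hφ
      rw [mem_insert] at hφ
      rcases hφ with rfl | hφ
      · rw [hmoψ]
        exact hψ
      · rw [hmoF φ hφ]
        exact hF.char φ hφ
    · intro φ hφ
      rw [mem_insert] at hφ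
      rcases hφ with rfl | hφ
      · rw [hmoψ]
        exact hN
      · rw [hmoF φ hφ]
        exact hF.norm φ hφ
    · intro φ hφ φ' hφ' hne
      rw [mem_insert] at hφ hφ'
      rcases hφ with rfl | hφ
      · rcases hφ' with rfl | hφ'
        · exact absurd rfl hne
        · exact hinf φ' hφ'
      · rcases hφ' with rfl | hφ'
        · have h1 := hinf φ hφ
          have e : {v : HeightOneSpectrum (𝓞 K) | φ v.asIdeal ≠ φ' v.asIdeal} =
              {v : HeightOneSpectrum (𝓞 K) | φ' v.asIdeal ≠ φ v.asIdeal} := by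
            ext v
            exact ne_comm
          rw [e]
          exact h1
        · exact hF.ineq φ hφ φ' hφ' hne
  have h1 : (insert ψ F).card ∈ S := by
    refine ⟨insert ψ F, mo', hF', ?_, rfl⟩
    intro φ hφ
    rw [mem_insert] at hφ
    rcases hφ with rfl | hφ
    · exact hbadψ
    · exact hb φ hφ
  have h2 := le_csSup hSbdd h1
  rw [card_insert_of_notMem hψF] at h2
  omega

end Pool.Agent.H11.RC
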