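import Mathlib
import Pool.Agent.H11.RC.Count

/-!
# The bound for a ray class character outside of the exceptional set
-/

set_option autoImplicit false

namespace Pool.Agent.H11.RC

open NumberField IsDedekindDomain Finset Filter Topology
open Pool.Agent.H921R2.TatePole (nm below deg R w kL kL_log deg_two_bound CK C0 bddmul_summable
  w_summable two_le_nm nm_eq tsum_fiber summable_fiber nm_summable R_le prime_sum_bdd Lam fiber_card_le)
open Pool.Agent.H11.TC (blk mem_blk card_blk norm_cpow norm_cpow_le kk kk_le gp grid gp_re card_grid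
  exists_grid cpow_lip log_div_le ext G G_le nrm bad card_bad blocks sum_inv_sq RR RR_nonneg)

variable {K : Type} [Field K] [NumberField K] {N : ℕ}

open Classical in
/-- the coefficients -/
noncomputable def aa (i : ℕ) (S : Finset (HeightOneSpectrum (𝓞 K)))
    (α : HeightOneSpectrum (𝓞 K) → Fin N → ℂ) (v : HeightOneSpectrum (𝓞 K)) : ℂ :=
  if deg v = 1 ∧ v ∉ S then ∑ j, α v j * (nm v : ℂ) ^ (-(((i : ℝ) / 2 : ℝ) : ℂ)) else 0

theorem aa_le {i : ℕ} {S : Finset (HeightOneSpectrum (𝓞 K))} {α : HeightOneSpectrum (𝓞 K) → Fin N → ℂ}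
    (hα : ∀ v ∉ S, ∀ j, ‖α v j‖ ≤ (Ideal.absNorm v.asIdeal : ℝ) ^ ((i : ℝ) / 2))
    (v : HeightOneSpectrum (𝓞 K)) : ‖aa i S α v‖ ≤ N := by
  classical
  unfold aa
  split_ifs with hv
  · refine (norm_sum_le _ _).trans ?_
    have h2 : ∀ j, ‖α v j * (nm v : ℂ) ^ (-(((i : ℝ) / 2 : ℝ) : ℂ))‖ ≤ 1 := by
      intro j
      have h2 := two_le_nm v
      have h0 : (0 : ℝ) < nm v := by exact_mod_cast (by omega : 0 < nm v)
      rw [norm_mul, Complex.norm_natCast_cpow_of_pos (by omega)]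
      have e : (-(((i : ℝ) / 2 : ℝ) : ℂ)).re = -((i : ℝ) / 2) := by simp
      rw [e]
      calc ‖α v j‖ * (nm v : ℝ) ^ (-((i : ℝ) / 2)) ≤
          (nm v : ℝ) ^ ((i : ℝ) / 2) * (nm v : ℝ) ^ (-((i : ℝ) / 2)) := by
            gcongr
            exact hα v hv.2 j
        _ = 1 := by rw [← Real.rpow_add h0]; simp
    calc _ ≤ ∑ _j : Fin N, (1 : ℝ) := sum_le_sum fun j _ => h2 j
      _ = N := by simp
  · simp

open Classical in
/-- the contribution of a prime number -/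
noncomputable def zP (a : HeightOneSpectrum (𝓞 K) → ℂ) (ψ : Ideal (𝓞 K) →*₀ ℂ) (u : ℂ) (p : ℕ) : ℂ :=
  ∑ v ∈ fib K p, if deg v = 1 then (a v * ((below v : ℕ) : ℂ) ^ (-(1 + u))) * ψ v.asIdeal else 0

theorem Z_eq (a : HeightOneSpectrum (𝓞 K) → ℂ) (ψ : Ideal (𝓞 K) →*₀ ℂ) (u : ℂ) (j : ℕ) :
    Z a j ψ u = ∑ p ∈ blk j, zP a ψ u p := by
  classical
  unfold Z V zP
  rw [sum_filter, sum_biUnion]
  intro p _ q _ hpq
  rw [Function.onFun, disjoint_left]
  intro v hv hv'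
  rw [mem_fib] at hv hv'
  exact hpq (hv.symm.trans hv')

theorem zP_le {a : HeightOneSpectrum (𝓞 K) → ℂ} {B : ℝ} (hB : 0 ≤ B) (ha : ∀ v, ‖a v‖ ≤ B)
    {𝔣 : Ideal (𝓞 K)} {ψ : Ideal (𝓞 K) →*₀ ℂ} (hψ : IsRayClassCharacter 𝔣 ψ) {u : ℂ} {p : ℕ} (hp : 0 < p) :
    ‖zP a ψ u p‖ ≤ B * Module.finrank ℚ K * (p : ℝ) ^ (-(1 + u.re)) := by
  classical
  unfold zP
  refine (norm_sum_le _ _).trans ?_
  have h1 : ∀ v ∈ fib K p, ‖if deg v = 1 then (a v * ((below v : ℕ) : ℂ) ^ (-(1 + u))) * ψ v.asIdeal else 0‖ ≤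
      B * (p : ℝ) ^ (-(1 + u.re)) := by
    intro v hv
    rw [mem_fib] at hv
    split_ifs
    · rw [norm_mul, norm_mul, hv, norm_cpow hp]
      have h4 := hψ.norm_le v.asIdeal
      calc ‖a v‖ * (p : ℝ) ^ (-(1 + u.re)) * ‖ψ v.asIdeal‖ ≤ B * (p : ℝ) ^ (-(1 + u.re)) * 1 := by
            have := ha v
            gcongr
        _ = _ := mul_one _
    · rw [norm_zero]
      positivity
  refine (sum_le_sum h1).trans ?_
  rw [sum_const, nsmul_eq_mul]
  have h2 : ((fib K p).card : ℝ) ≤ Module.finrank ℚ K := by exact_mod_cast card_fib p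
  calc ((fib K p).card : ℝ) * (B * (p : ℝ) ^ (-(1 + u.re))) ≤
      Module.finrank ℚ K * (B * (p : ℝ) ^ (-(1 + u.re))) := by gcongr
    _ = _ := by ring

theorem term_eq {i : ℕ} {S : Finset (HeightOneSpectrum (𝓞 K))}
    {α β : HeightOneSpectrum (𝓞 K) → Fin N → ℂ} {𝔣 : Ideal (𝓞 K)} {ψ : Ideal (𝓞 K) →*₀ ℂ}
    (h𝔣 : 𝔣 ≠ ⊥) (h : IsTwist i S α β 𝔣 ψ) (ε τ : ℝ) {p : ℕ} (hp : p.Prime)
    (hb : p ∉ bad S (Ideal.absNorm 𝔣)) :
    ext (G β i τ) p * (p : ℝ) ^ (-(1 + ε)) =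
      (zP (aa i S α) ψ ((ε : ℂ) + τ * Complex.I) p).re := by
  classical
  have hp0 : (0 : ℝ) < p := by exact_mod_cast hp.pos
  have hpc : (p : ℂ) ≠ 0 := by exact_mod_cast hp.ne_zero
  unfold bad at hb
  rw [mem_union, not_or] at hb
  obtain ⟨hb1, hb2⟩ := hb
  have hf : Ideal.absNorm 𝔣 ≠ 0 := by
    rw [Ne, Ideal.absNorm_eq_zero_iff]
    exact h𝔣
  have hcop : ∀ v : HeightOneSpectrum (𝓞 K), (below v : ℕ) = p → IsCoprime v.asIdeal 𝔣 := by
    intro v hv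
    by_contra hcon
    rw [Ideal.isCoprime_iff_sup_eq] at hcon
    have h1 : 𝔣 ≤ v.asIdeal := by
      by_contra hle
      apply hcon
      have h2 : v.asIdeal < v.asIdeal ⊔ 𝔣 := lt_of_le_of_ne le_sup_left fun h => hle (by
        rw [h]
        exact le_sup_right)
      exact v.isMaximal.1.2 _ h2
    have h2 : Ideal.absNorm v.asIdeal ∣ Ideal.absNorm 𝔣 := Ideal.absNorm_dvd_absNorm_of_le h1
    apply hb1
    rw [Nat.mem_primeFactors]
    refine ⟨hp, dvd_trans ?_ h2, hf⟩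
    obtain ⟨h3, h4, -⟩ := nm_eq v
    change p ∣ nm v
    rw [h3, hv]
    exact dvd_pow_self _ h4.ne'
  have hS : ∀ v : HeightOneSpectrum (𝓞 K), (below v : ℕ) = p → v ∉ S := by
    intro v hv hvS
    apply hb2
    rw [mem_image]
    exact ⟨v, hvS, hv⟩
  have e1 : (p : ℂ) ^ (-(1 + ((ε : ℂ) + τ * Complex.I))) =
      (((p : ℝ) ^ (-(1 + ε)) : ℝ) : ℂ) * (p : ℂ) ^ (-((τ : ℂ) * Complex.I)) := by
    rw [Complex.ofReal_cpow hp0.le, show (-(1 + ((ε : ℂ) + τ * Complex.I))) =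
      ((-(1 + ε) : ℝ) : ℂ) + -((τ : ℂ) * Complex.I) by push_cast; ring, Complex.cpow_add _ _ hpc]
    simp
  have e2 : ∀ z x : ℂ, ((z * ((((p : ℝ) ^ (-(1 + ε)) : ℝ) : ℂ) * (p : ℂ) ^ (-((τ : ℂ) * Complex.I)))) *
      x).re = (z * (x * (p : ℂ) ^ (-((τ : ℂ) * Complex.I)))).re * (p : ℝ) ^ (-(1 + ε)) := by
    intro z x
    rw [← Complex.re_mul_ofReal]
    congr 1
    ring
  obtain ⟨q, hq⟩ : ∃ q : Nat.Primes, (q : ℕ) = p := ⟨⟨p, hp⟩, rfl⟩
  have hfib : fib K p = fibP q := by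
    subst hq
    unfold fib
    rw [dif_pos hp]
    rfl
  have hext : Pool.Agent.H11.TC.ext (G β i τ) p = G β i τ q := by
    subst hq
    unfold Pool.Agent.H11.TC.ext
    rw [dif_pos hp]
    rfl
  unfold zP
  rw [hext, hfib, sum_fibP, Complex.re_sum, G, sum_mul]
  refine sum_congr rfl fun v _ => ?_
  have hvp : (below v.1 : ℕ) = p := (congrArg Subtype.val v.2).trans hq
  have hvS := hS v.1 hvp
  by_cases hd : deg v.1 = 1
  · rw [if_pos hd, if_pos hd]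
    have hnm : nm v.1 = p := by
      have := (nm_eq v.1).1
      rw [this, hd, pow_one, hvp]
    rw [hvp, e1, e2]
    congr 2
    unfold aa
    rw [if_pos ⟨hd, hvS⟩, sum_mul]
    refine sum_congr rfl fun j _ => ?_
    unfold nrm
    rw [h.good v.1 hvS (hcop v.1 hvp) j, hnm,
      show (-((((i : ℝ) / 2 : ℝ) : ℂ) + τ * Complex.I)) =
        -(((i : ℝ) / 2 : ℝ) : ℂ) + -((τ : ℂ) * Complex.I) by ring, Complex.cpow_add _ _ hpc]
    ring
  · rw [if_neg hd, if_neg hd, zero_mul, Complex.zero_re]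

/-- **The bound for a character outside of the exceptional set.** -/
theorem det {i : ℕ} {S : Finset (HeightOneSpectrum (𝓞 K))}
    {α β : HeightOneSpectrum (𝓞 K) → Fin N → ℂ} {𝔣 : Ideal (𝓞 K)} {ψ : Ideal (𝓞 K) →*₀ ℂ}
    (hψ : IsRayClassCharacter 𝔣 ψ)
    (hα : ∀ v ∉ S, ∀ j, ‖α v j‖ ≤ (Ideal.absNorm v.asIdeal : ℝ) ^ ((i : ℝ) / 2))
    (h : IsTwist i S α β 𝔣 ψ) {B : ℝ} (hB : B = N * Module.finrank ℚ K)
    {j0 J M T : ℕ} (hj0 : 1 ≤ j0) (hJ : j0 ≤ J) (hM : 0 < M) (hM4 : 4 * B * (J : ℝ) ^ 3 ≤ M)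
    (hE : ¬ Bad j0 J M T (aa i S α) ψ)
    {ε τ : ℝ} (hε0 : 0 < ε) (hε1 : ε ≤ 1) (hτ : |τ| ≤ T) :
    |∑ p ∈ (Icc 1 (2 ^ J)).filter Nat.Prime, ext (G β i τ) p * (p : ℝ) ^ (-(1 + ε))| ≤
      N * ∑ p ∈ (Icc 1 (2 ^ j0)).filter Nat.Prime, RR K p / p + 2 +
        (bad S (Ideal.absNorm 𝔣)).card * (2 * B / 2 ^ j0) := by
  classical
  have hB0 : 0 ≤ B := by rw [hB]; positivity
  have hN0 : (0 : ℝ) ≤ N := by positivity
  have ha := aa_le (i := i) hα
  -- splitting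
  have hsplit : (Icc 1 (2 ^ J)).filter Nat.Prime =
      (Icc 1 (2 ^ j0)).filter Nat.Prime ∪ (Ioc (2 ^ j0) (2 ^ J)).filter Nat.Prime := by
    rw [← filter_union]
    congr 1
    ext p
    rw [mem_union, mem_Icc, mem_Icc, mem_Ioc]
    have h1 : 1 ≤ 2 ^ j0 := Nat.one_le_two_pow
    have h2 : 2 ^ j0 ≤ 2 ^ J := Nat.pow_le_pow_right (by norm_num) hJ
    omega
  have hdisj : Disjoint ((Icc 1 (2 ^ j0)).filter Nat.Prime) ((Ioc (2 ^ j0) (2 ^ J)).filter Nat.Prime) := by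
    rw [disjoint_left]
    intro p hp hp'
    rw [mem_filter, mem_Icc] at hp
    rw [mem_filter, mem_Ioc] at hp'
    omega
  rw [hsplit, sum_union hdisj]
  -- the first part
  have hpart1 : |∑ p ∈ (Icc 1 (2 ^ j0)).filter Nat.Prime, ext (G β i τ) p * (p : ℝ) ^ (-(1 + ε))| ≤
      N * ∑ p ∈ (Icc 1 (2 ^ j0)).filter Nat.Prime, RR K p / p := by
    refine (abs_sum_le_sum_abs _ _).trans ?_
    rw [mul_sum]
    refine sum_le_sum fun p hp => ?_
    rw [mem_filter] at hp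
    have hp0 : (0 : ℝ) < p := by exact_mod_cast hp.2.pos
    have hp1 : (1 : ℝ) ≤ p := by exact_mod_cast hp.2.one_lt.le
    rw [abs_mul, abs_of_nonneg (a := (p : ℝ) ^ (-(1 + ε))) (by positivity)]
    have h1 : |ext (G β i τ) p| ≤ N * RR K p := by
      unfold RR Pool.Agent.H11.TC.ext
      rw [dif_pos hp.2, dif_pos hp.2]
      exact G_le h.bound τ _
    have h2 : (p : ℝ) ^ (-(1 + ε)) ≤ 1 / p := by
      calc (p : ℝ) ^ (-(1 + ε)) ≤ (p : ℝ) ^ (-1 : ℝ) :=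
            Real.rpow_le_rpow_of_exponent_le hp1 (by linarith)
        _ = 1 / p := by rw [Real.rpow_neg_one, one_div]
    have h3 := RR_nonneg K p
    calc |ext (G β i τ) p| * (p : ℝ) ^ (-(1 + ε)) ≤ (N * RR K p) * (1 / p) := by gcongr
      _ = _ := by ring
  -- the blocks
  set u : ℂ := (ε : ℂ) + τ * Complex.I with hu
  have hure : 0 ≤ u.re := by rw [hu]; simp; exact hε0.le
  have hpart2 : |∑ p ∈ (Ioc (2 ^ j0) (2 ^ J)).filter Nat.Prime, ext (G β i τ) p * (p : ℝ) ^ (-(1 + ε))| ≤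
      2 + (bad S (Ideal.absNorm 𝔣)).card * (2 * B / 2 ^ j0) := by
    have e1 : ∀ p ∈ (Ioc (2 ^ j0) (2 ^ J)).filter Nat.Prime,
        |ext (G β i τ) p * (p : ℝ) ^ (-(1 + ε)) - (zP (aa i S α) ψ u p).re| ≤
          if p ∈ bad S (Ideal.absNorm 𝔣) then 2 * B / 2 ^ j0 else 0 := by
      intro p hp
      rw [mem_filter, mem_Ioc] at hp
      split_ifs with hb
      · have hp0 : (0 : ℝ) < p := by exact_mod_cast hp.2.pos
        have hp1 : (1 : ℝ) ≤ p := by exact_mod_cast hp.2.one_lt.le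
        have h2p : (2 : ℝ) ^ j0 ≤ p := by exact_mod_cast hp.1.1.le
        have h2 : (p : ℝ) ^ (-(1 + ε)) ≤ 1 / 2 ^ j0 := by
          calc (p : ℝ) ^ (-(1 + ε)) ≤ (p : ℝ) ^ (-1 : ℝ) :=
                Real.rpow_le_rpow_of_exponent_le hp1 (by linarith)
            _ = 1 / p := by rw [Real.rpow_neg_one, one_div]
            _ ≤ _ := by gcongr
        have h1 : |ext (G β i τ) p| ≤ B := by
          have h5 := G_le h.bound τ ⟨p, hp.2⟩
          have h6 : (R K ⟨p, hp.2⟩ : ℝ) ≤ Module.finrank ℚ K := by exact_mod_cast R_le _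
          unfold Pool.Agent.H11.TC.ext
          rw [dif_pos hp.2, hB]
          exact h5.trans (by gcongr)
        have h3 : |ext (G β i τ) p * (p : ℝ) ^ (-(1 + ε))| ≤ B * (1 / 2 ^ j0) := by
          rw [abs_mul, abs_of_nonneg (a := (p : ℝ) ^ (-(1 + ε))) (by positivity)]
          gcongr
        have h4 : |(zP (aa i S α) ψ u p).re| ≤ B * (1 / 2 ^ j0) := by
          refine (Complex.abs_re_le_norm _).trans ((zP_le hN0 ha hψ hp.2.pos).trans ?_)
          have h6 : u.re = ε := by rw [hu]; simp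
          rw [h6, ← hB]
          gcongr
        refine (abs_sub _ _).trans ?_
        calc _ ≤ B * (1 / 2 ^ j0) + B * (1 / 2 ^ j0) := add_le_add h3 h4
          _ = _ := by ring
      · rw [term_eq hψ.ne_bot h ε τ hp.2 hb, ← hu, sub_self, abs_zero]
    have e2 : |∑ p ∈ (Ioc (2 ^ j0) (2 ^ J)).filter Nat.Prime, ext (G β i τ) p * (p : ℝ) ^ (-(1 + ε)) -
        (∑ p ∈ (Ioc (2 ^ j0) (2 ^ J)).filter Nat.Prime, zP (aa i S α) ψ u p).re| ≤
          (bad S (Ideal.absNorm 𝔣)).card * (2 * B / 2 ^ j0) := by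
      rw [Complex.re_sum, ← sum_sub_distrib]
      refine (abs_sum_le_sum_abs _ _).trans ((sum_le_sum e1).trans ?_)
      rw [← sum_filter, sum_const, nsmul_eq_mul]
      gcongr
      intro p hp
      exact (mem_filter.mp hp).2
    have e3 : ‖∑ p ∈ (Ioc (2 ^ j0) (2 ^ J)).filter Nat.Prime, zP (aa i S α) ψ u p‖ ≤ 2 := by
      rw [blocks _ j0 J hJ]
      refine (norm_sum_le _ _).trans ?_
      have h5 : ∀ j ∈ Ico j0 J, ‖∑ p ∈ blk j, zP (aa i S α) ψ u p‖ ≤ 1 / (j : ℝ) ^ 2 := by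
        intro j hj
        rw [← Z_eq]
        obtain ⟨g, hg, hg2⟩ := exists_grid hM hε0.le hε1 hτ
        rw [← hu] at hg2
        have h6 : ‖Z (aa i S α) j ψ (gp M g)‖ ≤ 1 / (2 * (j : ℝ) ^ 2) := by
          by_contra hcon
          push Not at hcon
          exact hE ⟨j, hj, g, hg, hcon⟩
        have h7 := Z_lip hN0 ha j hψ (gp_re M g) hure
        have hj1 : 1 ≤ j := hj0.trans (mem_Ico.mp hj).1
        have hj1' : (1 : ℝ) ≤ j := by exact_mod_cast hj1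
        have hjJ : (j : ℝ) + 1 ≤ J := by exact_mod_cast (mem_Ico.mp hj).2
        have hM0 : (0 : ℝ) < M := by exact_mod_cast hM
        have hBe : (Module.finrank ℚ K : ℝ) * N = B := by rw [hB]; ring
        rw [hBe] at h7
        have h8 : B * ((j : ℝ) + 1) * ‖u - gp M g‖ ≤ 1 / (2 * (j : ℝ) ^ 2) := by
          calc B * ((j : ℝ) + 1) * ‖u - gp M g‖ ≤ B * ((j : ℝ) + 1) * (2 / M) := by gcongr
            _ ≤ 1 / (2 * (j : ℝ) ^ 2) := by
                rw [mul_div_assoc', div_le_div_iff₀ hM0 (by positivity)]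
                have h9 : ((j : ℝ) + 1) * (j : ℝ) ^ 2 ≤ (J : ℝ) ^ 3 := by
                  calc ((j : ℝ) + 1) * (j : ℝ) ^ 2 ≤ (J : ℝ) * (J : ℝ) ^ 2 := by
                        gcongr
                        exact (mem_Ico.mp hj).2.le
                    _ = _ := by ring
                have h10 : 4 * B * (((j : ℝ) + 1) * (j : ℝ) ^ 2) ≤ 4 * B * (J : ℝ) ^ 3 := by gcongr
                nlinarith
        have h9 : ‖Z (aa i S α) j ψ u‖ ≤ ‖Z (aa i S α) j ψ (gp M g)‖ +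
            ‖Z (aa i S α) j ψ u - Z (aa i S α) j ψ (gp M g)‖ := by
          have := norm_add_le (Z (aa i S α) j ψ (gp M g))
            (Z (aa i S α) j ψ u - Z (aa i S α) j ψ (gp M g))
          rwa [add_sub_cancel] at this
        have h10 : 1 / (2 * (j : ℝ) ^ 2) + 1 / (2 * (j : ℝ) ^ 2) = 1 / (j : ℝ) ^ 2 := by
          field_simp
          norm_num
        linarith
      exact (sum_le_sum h5).trans (sum_inv_sq j0 J hj0)
    have e4 := (Complex.abs_re_le_norm (∑ p ∈ (Ioc (2 ^ j0) (2 ^ J)).filter Nat.Prime,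
        zP (aa i S α) ψ u p)).trans e3
    have e5 := abs_add_le (∑ p ∈ (Ioc (2 ^ j0) (2 ^ J)).filter Nat.Prime,
      ext (G β i τ) p * (p : ℝ) ^ (-(1 + ε)) - (∑ p ∈ (Ioc (2 ^ j0) (2 ^ J)).filter Nat.Prime,
          zP (aa i S α) ψ u p).re)
      ((∑ p ∈ (Ioc (2 ^ j0) (2 ^ J)).filter Nat.Prime, zP (aa i S α) ψ u p).re)
    rw [sub_add_cancel] at e5
    linarith
  refine (abs_add_le _ _).trans ?_
  linarith

end Pool.Agent.H11.RC
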