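import Mathlib
import Pool.Agent.H11.RC.Det
import Pool.Agent.H11.TC.Main

/-!
# L-functions of varieties twisted by almost all ray class characters: the main theorem
-/

set_option autoImplicit false

namespace Pool.Agent.H11.RC

open NumberField IsDedekindDomain Finset Filter Topology
open Pool.Agent.H921R2.TatePole (CK C0 R_le nm_eq)
open Pool.Agent.H11.TC (blk mem_blk card_blk kk grid gp ext G G_le bad card_bad RR mertens_K large
  pow_bound size_bound log_LFun cut LFun)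

variable {K : Type} [Field K] [NumberField K]

theorem core (K : Type) [Field K] [NumberField K] (i N : ℕ) (η : ℝ) (hη : 0 < η) (hη1 : η ≤ 1) :
    ∃ C : ℝ, 0 < C ∧ ∃ Q1 : ℕ, ∀ Q Q' : ℕ, Q1 ≤ Q' → 16 ≤ Q' → 1 ≤ Q → Q ^ Module.finrank ℚ K ≤ Q' →
      ∀ S : Finset (HeightOneSpectrum (𝓞 K)),
      (S.card : ℝ) ≤ Real.log Q' → ∀ α : HeightOneSpectrum (𝓞 K) → Fin N → ℂ,
      (∀ v ∉ S, ∀ j, ‖α v j‖ ≤ (Ideal.absNorm v.asIdeal : ℝ) ^ ((i : ℝ) / 2)) →
      ∃ E : Finset (Ideal (𝓞 K) →*₀ ℂ), (E.card : ℝ) ≤ C * (Q' : ℝ) ^ η ∧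
        ∀ (𝔣 : Ideal (𝓞 K)) (ψ : Ideal (𝓞 K) →*₀ ℂ), IsRayClassCharacter 𝔣 ψ → Ideal.absNorm 𝔣 ≤ Q →
          (∀ ψ' ∈ E, {v : HeightOneSpectrum (𝓞 K) | ψ v.asIdeal ≠ ψ' v.asIdeal}.Infinite) →
          ∀ β : HeightOneSpectrum (𝓞 K) → Fin N → ℂ, IsTwist i S α β 𝔣 ψ →
          ∀ ε τ : ℝ, (Q' : ℝ) ^ (-(η / 48)) ≤ ε → ε ≤ 1 → |τ| ≤ (Q' : ℝ) ^ (η / 48) →
            LFun β ((i : ℂ) / 2 + 1 + ε + τ * Complex.I) ≠ 0 ∧
            |Real.log ‖LFun β ((i : ℂ) / 2 + 1 + ε + τ * Complex.I)‖| ≤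
              N * Real.log (Real.log (Real.log Q')) + C := by
  classical
  obtain ⟨CM, hCM0, hCM⟩ := mertens_K K
  obtain ⟨CX, hCX, hexc⟩ := exists_exc K
  obtain ⟨B, hB⟩ : ∃ B : ℝ, B = (N : ℝ) * (Module.finrank ℚ K : ℝ) := ⟨_, rfl⟩
  have hB0 : 0 ≤ B := by
    rw [hB]
    positivity
  obtain ⟨D, hD⟩ : ∃ D : ℝ, D = 8 * ((Module.finrank ℚ K : ℝ) * (N : ℝ) ^ 2) := ⟨_, rfl⟩
  have hD0 : 0 ≤ D := by
    rw [hD]
    positivity
  obtain ⟨A, hA⟩ : ∃ A : ℝ, A = 72 / η := ⟨_, rfl⟩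
  have hA72 : 72 ≤ A := by
    rw [hA, le_div_iff₀ hη]
    linarith
  have hA0 : 0 < A := by linarith
  obtain ⟨Q1, hQ1⟩ := large A D (η / 24) (by positivity) hA0
  have hCK : 0 ≤ CK K := Pool.Agent.H921R2.TatePole.CK_nonneg
  have hC0 := Pool.Agent.H921R2.TatePole.C0_nonneg
  have hlA : 0 ≤ Real.log (A + 1) := Real.log_nonneg (by linarith)
  obtain ⟨CE, hCE⟩ : ∃ CE : ℝ, CE = N * CK K + N * (Module.finrank ℚ K : ℝ) * C0 := ⟨_, rfl⟩
  have hCE0 : 0 ≤ CE := by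
    rw [hCE]
    positivity
  obtain ⟨C, hC⟩ : ∃ C : ℝ, C = CE + 24 * B + (N * (Real.log (A + 1) + CM) + 2 + 6 * B) +
    CX * (2 * (32 * B + 3) * (128 * B + 9) * (12 * (2 + 16 * D))) + 1 := ⟨_, rfl⟩
  have hC1 : CX * (2 * (32 * B + 3) * (128 * B + 9) * (12 * (2 + 16 * D))) ≤ C := by
    have : 0 ≤ CE + 24 * B + (N * (Real.log (A + 1) + CM) + 2 + 6 * B) := by positivity
    linarith
  have hC3 : CE + 24 * B + (N * (Real.log (A + 1) + CM) + 2 + 6 * B) ≤ C := by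
    have : 0 ≤ CX * (2 * (32 * B + 3) * (128 * B + 9) * (12 * (2 + 16 * D))) := by positivity
    linarith
  have hCpos : 0 < C := by
    rw [hC]
    positivity
  refine ⟨C, hCpos, Q1, fun Q0 Q hlarge hQ hQ01 hQQ S hS α hα => ?_⟩
  have hQr : (1 : ℝ) ≤ Q := by exact_mod_cast (by omega : 1 ≤ Q)
  have hQ0 : (0 : ℝ) < Q := by linarith
  have hQη : 1 ≤ (Q : ℝ) ^ η := Real.one_le_rpow hQr hη.le
  obtain ⟨g1, g2, g3⟩ := hQ1 Q hlarge
  obtain ⟨L, hL⟩ : ∃ L, L = Real.log Q := ⟨_, rfl⟩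
  rw [← hL] at g1 g2 g3 hS
  rw [← hL]
  have hL0 : 0 < L := by
    by_contra hneg
    push Not at hneg
    have hL' : 0 ≤ L := hL ▸ Real.log_nonneg hQr
    have : L = 0 := le_antisymm hneg hL'
    rw [this, Real.log_zero] at g1
    linarith
  have hL1 : 1 ≤ L := by
    have h1 := Real.add_one_le_exp (Real.log L)
    rw [Real.exp_log hL0] at h1
    linarith
  obtain ⟨j0, hj0⟩ : ∃ j0 : ℕ, j0 = ⌈A * Real.log L⌉₊ := ⟨_, rfl⟩
  obtain ⟨J, hJ⟩ : ∃ J : ℕ, J = ⌈(Q : ℝ) ^ (η / 24)⌉₊ := ⟨_, rfl⟩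
  obtain ⟨M, hM⟩ : ∃ M : ℕ, M = ⌈4 * B * (J : ℝ) ^ 3⌉₊ + 1 := ⟨_, rfl⟩
  obtain ⟨T, hT⟩ : ∃ T : ℕ, T = ⌈(Q : ℝ) ^ (η / 48)⌉₊ := ⟨_, rfl⟩
  have hj0A : A * Real.log L ≤ j0 := by
    rw [hj0]
    exact Nat.le_ceil _
  have hj0A2 : (j0 : ℝ) ≤ (A + 1) * Real.log L := by
    have := (Nat.ceil_lt_add_one (a := A * Real.log L) (by positivity)).le
    rw [← hj0] at this
    linarith
  have hj02 : (72 : ℝ) ≤ j0 := by nlinarith
  have hj01 : 1 ≤ j0 := by
    have : (1 : ℝ) ≤ j0 := by linarith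
    exact_mod_cast this
  have hLL : Real.log L ≤ L := (Real.log_le_sub_one_of_pos hL0).trans (by linarith)
  have hj0J : j0 ≤ J := by
    rw [hj0, hJ]
    apply Nat.ceil_le_ceil
    calc A * Real.log L ≤ A * L := by gcongr
      _ ≤ (A + 1) * L := by nlinarith
      _ ≤ _ := g3
  have h2j0 : L ≤ 2 ^ j0 := by
    have h1 : Real.log L ≤ Real.log ((2 : ℝ) ^ j0) := by
      rw [Real.log_pow]
      have := Real.log_two_gt_d9
      nlinarith
    exact (Real.log_le_log_iff hL0 (by positivity)).mp h1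
  have hX1 : 1 ≤ (Q : ℝ) ^ (η / 24) := Real.one_le_rpow hQr (by positivity)
  have hY1 : 1 ≤ (Q : ℝ) ^ (η / 48) := Real.one_le_rpow hQr (by positivity)
  have hJ2 : (J : ℝ) ≤ 2 * (Q : ℝ) ^ (η / 24) := by
    have := (Nat.ceil_lt_add_one (a := (Q : ℝ) ^ (η / 24)) (by positivity)).le
    rw [← hJ] at this
    linarith
  have hT2 : (T : ℝ) ≤ 2 * (Q : ℝ) ^ (η / 48) := by
    have := (Nat.ceil_lt_add_one (a := (Q : ℝ) ^ (η / 48)) (by positivity)).le
    rw [← hT] at this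
    linarith
  have hM1 : 4 * B * (J : ℝ) ^ 3 ≤ M := by
    rw [hM]
    push_cast
    have := Nat.le_ceil (4 * B * (J : ℝ) ^ 3)
    linarith
  have hM2 : (M : ℝ) ≤ 4 * B * (J : ℝ) ^ 3 + 2 := by
    rw [hM]
    push_cast
    have := (Nat.ceil_lt_add_one (a := 4 * B * (J : ℝ) ^ 3) (by positivity)).le
    linarith
  have hM0 : 0 < M := by
    rw [hM]
    exact Nat.succ_pos _
  have ha := aa_le (i := i) hα
  have hW : ∀ j ∈ Ico j0 J, (8 * ((Module.finrank ℚ K : ℝ) * (N : ℝ) ^ 2) * kk Q j * (j : ℝ) ^ 4) ^ kk Q j ≤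
      (Q : ℝ) ^ (η / 2) + 1 + D * (J : ℝ) ^ 4 := by
    intro j hj
    rw [mem_Ico] at hj
    have h0 : A * Real.log L ≤ j := hj0A.trans (by exact_mod_cast hj.1)
    have h1 := pow_bound hD0 hA0 Q j (hj01.trans hj.1) (by omega) (hL ▸ hL1) (hL ▸ g2) (hL ▸ h0)
    rw [← hD]
    have h2 : 36 / A = η / 2 := by
      rw [hA]
      field_simp
      norm_num
    rw [h2] at h1
    have h3 : (j : ℝ) ^ 4 ≤ (J : ℝ) ^ 4 := by
      gcongr
      exact hj.2.le
    have h4 : D * (j : ℝ) ^ 4 ≤ D * (J : ℝ) ^ 4 := by gcongr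
    linarith
  obtain ⟨E, hE1, hE2⟩ := hexc Q0 Q j0 J M T hQ01 hj01 hQQ (aa i S α) N (by positivity) ha
    ((Q : ℝ) ^ (η / 2) + 1 + D * (J : ℝ) ^ 4) (by positivity) hW
  refine ⟨E, ?_, ?_⟩
  · have h2 := size_bound hQr hη hB0 hD0 hJ2 hM2 hT2
    have h3 : (0 : ℝ) ≤ (J : ℝ) * (((M : ℝ) + 1) * (2 * T * M + 1)) *
      ((Q : ℝ) ^ (η / 2) + 1 + D * (J : ℝ) ^ 4) := by positivity
    have h4 : (J : ℝ) * (((M : ℝ) + 1) * (2 * T * M + 1)) * ((Q : ℝ) ^ (η / 2) + 1 + D * (J : ℝ) ^ 4) ≤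
        2 * (32 * B + 3) * (128 * B + 9) * (12 * (2 + 16 * D)) * (Q : ℝ) ^ η := by
      refine le_trans ?_ h2
      rw [show (J : ℝ) * (((M : ℝ) + 1) * (2 * T * M + 1)) * (12 * ((Q : ℝ) ^ (η / 2) + 1 + D * (J : ℝ) ^ 4)) =
        12 * ((J : ℝ) * (((M : ℝ) + 1) * (2 * T * M + 1)) * ((Q : ℝ) ^ (η / 2) + 1 + D * (J : ℝ) ^ 4)) by ring]
      linarith
    calc (E.card : ℝ) ≤ CX * (J * ((M + 1) * (2 * T * M + 1)) *
          ((Q : ℝ) ^ (η / 2) + 1 + D * (J : ℝ) ^ 4)) := hE1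
      _ ≤ CX * (2 * (32 * B + 3) * (128 * B + 9) * (12 * (2 + 16 * D)) * (Q : ℝ) ^ η) := by gcongr
      _ = CX * (2 * (32 * B + 3) * (128 * B + 9) * (12 * (2 + 16 * D))) * (Q : ℝ) ^ η := by ring
      _ ≤ C * (Q : ℝ) ^ η := by gcongr
  · intro 𝔣 ψ hψ hfQ hinf β hβ ε τ hε0 hε1 hτ
    have hεp : 0 < ε := lt_of_lt_of_le (by positivity) hε0
    have hE := hE2 𝔣 ψ hψ hfQ hinf
    have hτT : |τ| ≤ T := by
      rw [hT]
      exact hτ.trans (Nat.le_ceil _)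
    have h1 := det hψ hα hβ hB hj01 hj0J hM0 hM1 hE hεp hε1 hτT
    have h2 := log_LFun i N hβ.bound ε τ hεp
    refine ⟨h2.1, ?_⟩
    have hGB : ∀ p : Nat.Primes, |G β i τ p| ≤ B := by
      intro p
      refine (G_le hβ.bound τ p).trans ?_
      rw [hB]
      have : (Pool.Agent.H921R2.TatePole.R K p : ℝ) ≤ Module.finrank ℚ K := by exact_mod_cast R_le p
      gcongr
    have hJ1 : 1 ≤ J := hj01.trans hj0J
    have h3 := cut hB0 hGB hεp hε1 (2 ^ J) (by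
      calc 2 = 2 ^ 1 := rfl
        _ ≤ 2 ^ J := Nat.pow_le_pow_right (by norm_num) hJ1)
    have h4 : B * (16 / (ε * Real.log ((2 ^ J : ℕ) : ℝ))) ≤ 24 * B := by
      have e1 : Real.log ((2 ^ J : ℕ) : ℝ) = J * Real.log 2 := by
        push_cast
        rw [Real.log_pow]
      rw [e1]
      have e2 : 1 ≤ ε * J := by
        have h5 : (Q : ℝ) ^ (-(η / 48)) * (Q : ℝ) ^ (η / 24) ≤ ε * J := by
          have := Nat.le_ceil ((Q : ℝ) ^ (η / 24))
          rw [← hJ] at this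
          gcongr
        rw [← Real.rpow_add hQ0] at h5
        refine le_trans ?_ h5
        apply Real.one_le_rpow hQr
        linarith
      have e3 := Real.log_two_gt_d9
      have e4 : 2 / 3 ≤ ε * (J * Real.log 2) := by nlinarith
      have e5 : 16 / (ε * (J * Real.log 2)) ≤ 24 := by
        rw [div_le_iff₀ (by linarith)]
        linarith
      calc B * (16 / (ε * (J * Real.log 2))) ≤ B * 24 := by gcongr
        _ = _ := by ring
    have h5 : ∑ p ∈ (Icc 1 (2 ^ j0)).filter Nat.Prime, RR K p / p ≤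
        Real.log (Real.log L) + (Real.log (A + 1) + CM) := by
      have h6 := hCM (2 ^ j0) (by
        calc 3 ≤ 2 ^ 2 := by norm_num
          _ ≤ 2 ^ j0 := Nat.pow_le_pow_right (by norm_num) (by
              have : (2 : ℝ) ≤ j0 := by linarith
              exact_mod_cast this))
      have h7 : Real.log (Real.log ((2 ^ j0 : ℕ) : ℝ)) ≤ Real.log (A + 1) + Real.log (Real.log L) := by
        rw [← Real.log_mul (by linarith) (by linarith)]
        have e1 : Real.log ((2 ^ j0 : ℕ) : ℝ) = j0 * Real.log 2 := by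
          push_cast
          rw [Real.log_pow]
        rw [e1]
        have e2 := Real.log_two_gt_d9
        have e3 := Real.log_two_lt_d9
        apply Real.log_le_log (by nlinarith)
        nlinarith
      linarith
    have hf1 : 1 ≤ Ideal.absNorm 𝔣 := by
      rw [Nat.one_le_iff_ne_zero, Ne, Ideal.absNorm_eq_zero_iff]
      exact hψ.ne_bot
    have hfQ' : Ideal.absNorm 𝔣 ≤ Q := hfQ.trans (le_trans (Nat.le_self_pow
      (Nat.pos_iff_ne_zero.mp Module.finrank_pos) Q0) hQQ)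
    have h6 : ((bad S (Ideal.absNorm 𝔣)).card : ℝ) * (2 * B / 2 ^ j0) ≤ 6 * B := by
      have h7 := card_bad S hf1 hfQ' (hL ▸ hS)
      rw [← hL] at h7
      calc ((bad S (Ideal.absNorm 𝔣)).card : ℝ) * (2 * B / 2 ^ j0) ≤ (3 * L) * (2 * B / 2 ^ j0) := by gcongr
        _ = 6 * B * (L / 2 ^ j0) := by ring
        _ ≤ 6 * B * 1 := by
            gcongr
            rw [div_le_one (by positivity)]
            exact h2j0
        _ = _ := by ring
    have h7 : (N : ℝ) * ∑ p ∈ (Icc 1 (2 ^ j0)).filter Nat.Prime, RR K p / p ≤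
        N * Real.log (Real.log L) + N * (Real.log (A + 1) + CM) := by
      rw [← mul_add]
      gcongr
    set LL := Real.log ‖LFun β ((i : ℂ) / 2 + 1 + ε + τ * Complex.I)‖ with hLL'
    set S1 := ∑' p : Nat.Primes, G β i τ p * Pool.Agent.H921R2.TatePole.w (1 + ε) p with hS1
    set S2 := ∑ p ∈ (Icc 1 (2 ^ J)).filter Nat.Prime, Pool.Agent.H11.TC.ext (G β i τ) p *
      (p : ℝ) ^ (-(1 + ε)) with hS2
    have a1 : |LL| ≤ |LL - S1| + |S1 - S2| + |S2| := by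
      have b1 := abs_add_le (LL - S1) (S1 - S2)
      have b2 := abs_add_le ((LL - S1) + (S1 - S2)) S2
      rw [show (LL - S1) + (S1 - S2) + S2 = LL by ring] at b2
      linarith
    have a2 := h2.2
    rw [← hCE] at a2
    linarith

/-- all ray class characters of small conductor -/
theorem exists_all (K : Type) [Field K] [NumberField K] (Q : ℕ) (hQ : 1 ≤ Q) :
    ∃ E : Finset (Ideal (𝓞 K) →*₀ ℂ),
      ∀ (𝔣 : Ideal (𝓞 K)) (ψ : Ideal (𝓞 K) →*₀ ℂ), IsRayClassCharacter 𝔣 ψ → Ideal.absNorm 𝔣 ≤ Q →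
        ¬ ∀ ψ' ∈ E, {v : HeightOneSpectrum (𝓞 K) | ψ v.asIdeal ≠ ψ' v.asIdeal}.Infinite := by
  classical
  obtain ⟨C, hC, hls⟩ := large_sieve K
  have hfam : ∀ (F : Finset (Ideal (𝓞 K) →*₀ ℂ)) (mo : (Ideal (𝓞 K) →*₀ ℂ) → Ideal (𝓞 K)), Family Q F mo →
      (F.card : ℝ) ≤ C * ((1 : ℕ) + (Q : ℝ) ^ (2 * Module.finrank ℚ K)) := by
    intro F mo hF
    have h1 := hls Q 1 hQ le_rfl F mo hF {1} (by
      intro a ha
      rw [mem_singleton] at ha
      subst ha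
      refine ⟨?_, isCoprime_one_left, ?_⟩
      · exact one_ne_zero
      · rw [map_one]) (fun _ => 1)
    simp only [sum_singleton, map_one, mul_one, norm_one, one_pow, sum_const, nsmul_eq_mul,
      card_singleton, Nat.cast_one] at h1
    rw [Nat.cast_one]
    exact h1
  obtain ⟨bd, hbd⟩ : ∃ bd : ℝ, bd = C * ((1 : ℕ) + (Q : ℝ) ^ (2 * Module.finrank ℚ K)) := ⟨_, rfl⟩
  rw [← hbd] at hfam
  let S : Set ℕ := {n | ∃ (F : Finset (Ideal (𝓞 K) →*₀ ℂ)) (mo : (Ideal (𝓞 K) →*₀ ℂ) → Ideal (𝓞 K)),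
    Family Q F mo ∧ F.card = n}
  have hSbdd : BddAbove S := by
    refine ⟨⌊bd⌋₊, ?_⟩
    rintro n ⟨F, mo, hF, rfl⟩
    exact Nat.le_floor (hfam F mo hF)
  have hSne : S.Nonempty := ⟨0, ∅, fun _ => ⊥, ⟨by simp, by simp, by simp⟩, by simp⟩
  obtain ⟨F, mo, hF, hcard⟩ := Nat.sSup_mem hSne hSbdd
  refine ⟨F, fun 𝔣 ψ hψ hN hinf => ?_⟩
  have hψF : ψ ∉ F := by
    intro h
    have := hinf ψ h
    simp at this
  set mo' : (Ideal (𝓞 K) →*₀ ℂ) → Ideal (𝓞 K) := fun φ => if φ = ψ then 𝔣 else mo φ with hmo'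
  have hmoF : ∀ φ ∈ F, mo' φ = mo φ := by
    intro φ hφ
    rw [hmo']
    simp only
    rw [if_neg]
    rintro rfl
    exact hψF hφ
  have hmoψ : mo' ψ = 𝔣 := by
    rw [hmo']
    simp
  have hF' : Family Q (insert ψ F) mo' := by
    refine ⟨?_, ?_, ?_⟩
    · intro φ hφ
      rw [mem_insert] at hφ
      rcases hφ with rfl | hφ
      · rw [hmoψ]
        exact hψ
      · rw [hmoF φ hφ]
        exact hF.char φ hφ
    · intro φ hφ
      rw [mem_insert] at hφ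
      rcases hφ with rfl | hφ
      · rw [hmoψ]
        exact hN
      · rw [hmoF φ hφ]
        exact hF.norm φ hφ
    · intro φ hφ φ' hφ' hne
      rw [mem_insert] at hφ hφ'
      rcases hφ with rfl | hφ
      · rcases hφ' with rfl | hφ'
        · exact absurd rfl hne
        · exact hinf φ' hφ'
      · rcases hφ' with rfl | hφ'
        · have h1 := hinf φ hφ
          have e : {v : HeightOneSpectrum (𝓞 K) | φ v.asIdeal ≠ φ' v.asIdeal} =
              {v : HeightOneSpectrum (𝓞 K) | φ' v.asIdeal ≠ φ v.asIdeal} := by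
            ext v
            exact ne_comm
          rw [e]
          exact h1
        · exact hF.ineq φ hφ φ' hφ' hne
  have h1 : (insert ψ F).card ∈ S := ⟨insert ψ F, mo', hF', rfl⟩
  have h2 := le_csSup hSbdd h1
  rw [card_insert_of_notMem hψF] at h2
  omega

/-- **The main theorem.** -/
theorem main (K : Type) [Field K] [NumberField K] (i N : ℕ) (η : ℝ) (hη : 0 < η) (hη1 : η ≤ 1) :
    ∃ C : ℝ, 0 < C ∧ ∀ Q : ℕ, 16 ≤ Q → ∀ S : Finset (HeightOneSpectrum (𝓞 K)),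
      (S.card : ℝ) ≤ Real.log Q → ∀ α : HeightOneSpectrum (𝓞 K) → Fin N → ℂ,
      (∀ v ∉ S, ∀ j, ‖α v j‖ ≤ (Ideal.absNorm v.asIdeal : ℝ) ^ ((i : ℝ) / 2)) →
      ∃ E : Finset (Ideal (𝓞 K) →*₀ ℂ), (E.card : ℝ) ≤ C * (Q : ℝ) ^ η ∧
        ∀ (𝔣 : Ideal (𝓞 K)) (ψ : Ideal (𝓞 K) →*₀ ℂ), IsRayClassCharacter 𝔣 ψ → Ideal.absNorm 𝔣 ≤ Q →
          (∀ ψ' ∈ E, {v : HeightOneSpectrum (𝓞 K) | ψ v.asIdeal ≠ ψ' v.asIdeal}.Infinite) →
          ∀ β : HeightOneSpectrum (𝓞 K) → Fin N → ℂ, IsTwist i S α β 𝔣 ψ →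
          ∀ ε τ : ℝ, (Q : ℝ) ^ (-(η / 48)) ≤ ε → ε ≤ 1 → |τ| ≤ (Q : ℝ) ^ (η / 48) →
            LFun β ((i : ℂ) / 2 + 1 + ε + τ * Complex.I) ≠ 0 ∧
            |Real.log ‖LFun β ((i : ℂ) / 2 + 1 + ε + τ * Complex.I)‖| ≤
              N * Real.log (Real.log (Real.log Q)) + C := by
  classical
  set d := Module.finrank ℚ K with hd
  have hd0 : 0 < d := Module.finrank_pos
  have hd1 : (1 : ℝ) ≤ d := by exact_mod_cast hd0
  have hd0' : (d : ℝ) ≠ 0 := by positivity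
  obtain ⟨C, hC, Q1, h⟩ := core K i N (η / d) (by positivity) (by
    rw [div_le_one (by linarith)]
    linarith)
  obtain ⟨Q2, hQ2⟩ := large 1 0 1 one_pos one_pos
  have hld : 0 ≤ Real.log d := Real.log_nonneg hd1
  obtain ⟨E0, hE0⟩ := exists_all K (max Q1 Q2 + 1) (by omega)
  refine ⟨C + N * Real.log (1 + Real.log d) + E0.card, by
    have : 0 ≤ Real.log (1 + Real.log d) := Real.log_nonneg (by linarith)
    positivity, fun Q hQ S hS α hα => ?_⟩
  have hQr : (1 : ℝ) ≤ Q := by exact_mod_cast (by omega : 1 ≤ Q)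
  have hQ0 : (0 : ℝ) < Q := by linarith
  have hlQ : 0 ≤ Real.log Q := Real.log_nonneg hQr
  have hQη : 1 ≤ (Q : ℝ) ^ η := Real.one_le_rpow hQr hη.le
  have hl1 : 0 ≤ Real.log (1 + Real.log d) := Real.log_nonneg (by linarith)
  have hC' : C ≤ C + N * Real.log (1 + Real.log d) + E0.card := by
    have : (0 : ℝ) ≤ N * Real.log (1 + Real.log d) + E0.card := by positivity
    linarith
  by_cases hlarge : max Q1 Q2 ≤ Q
  · have hQ1Q : Q1 ≤ Q := (le_max_left _ _).trans hlarge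
    have hQ2Q : Q2 ≤ Q := (le_max_right _ _).trans hlarge
    obtain ⟨g1, -, -⟩ := hQ2 Q hQ2Q
    have hQd : Q ≤ Q ^ d := Nat.le_self_pow hd0.ne' Q
    have hcast : ((Q ^ d : ℕ) : ℝ) = (Q : ℝ) ^ (d : ℝ) := by
      rw [Real.rpow_natCast]
      push_cast
      rfl
    have hlog : Real.log ((Q ^ d : ℕ) : ℝ) = d * Real.log Q := by
      push_cast
      rw [Real.log_pow]
    have hpow : ∀ x : ℝ, ((Q ^ d : ℕ) : ℝ) ^ (x / d) = (Q : ℝ) ^ x := by
      intro x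
      rw [hcast, ← Real.rpow_mul hQ0.le]
      congr 1
      field_simp
    obtain ⟨E, hE1, hE2⟩ := h Q (Q ^ d) (hQ1Q.trans hQd) (hQ.trans hQd) (by omega) le_rfl S (by
      rw [hlog]
      nlinarith) α hα
    refine ⟨E, ?_, ?_⟩
    · rw [hpow] at hE1
      exact hE1.trans (by gcongr)
    · intro 𝔣 ψ hψ hfQ hinf β hβ ε τ hε0 hε1 hτ
      have e1 : ((Q ^ d : ℕ) : ℝ) ^ (-(η / d / 48)) = (Q : ℝ) ^ (-(η / 48)) := by
        rw [← hpow]
        congr 1
        field_simp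
      have e2 : ((Q ^ d : ℕ) : ℝ) ^ (η / d / 48) = (Q : ℝ) ^ (η / 48) := by
        rw [← hpow]
        congr 1
        field_simp
      obtain ⟨h1, h2⟩ := hE2 𝔣 ψ hψ hfQ hinf β hβ ε τ (by rw [e1]; exact hε0) hε1 (by rw [e2]; exact hτ)
      refine ⟨h1, h2.trans ?_⟩
      have h3 : Real.log (Real.log (Real.log ((Q ^ d : ℕ) : ℝ))) ≤
          Real.log (Real.log (Real.log Q)) + Real.log (1 + Real.log d) := by
        have hL0 : 0 < Real.log Q := by
          by_contra hneg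
          push Not at hneg
          have : Real.log Q = 0 := le_antisymm hneg hlQ
          rw [this, Real.log_zero] at g1
          linarith
        have k1 : Real.log (Real.log ((Q ^ d : ℕ) : ℝ)) = Real.log d + Real.log (Real.log Q) := by
          rw [hlog, Real.log_mul hd0' hL0.ne']
        rw [k1]
        have k2 : Real.log d + Real.log (Real.log Q) ≤ Real.log (Real.log Q) * (1 + Real.log d) := by
          nlinarith
        have k3 := Real.log_le_log (by linarith) k2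
        rw [Real.log_mul (by linarith) (by linarith)] at k3
        exact k3
      have h4 : (N : ℝ) * Real.log (Real.log (Real.log ((Q ^ d : ℕ) : ℝ))) ≤
          N * (Real.log (Real.log (Real.log Q)) + Real.log (1 + Real.log d)) := by gcongr
      have h5 : (0 : ℝ) ≤ E0.card := by positivity
      linarith
  · push Not at hlarge
    refine ⟨E0, ?_, ?_⟩
    · have h1 : (0 : ℝ) ≤ C + N * Real.log (1 + Real.log d) := by positivity
      have h2 : (0 : ℝ) ≤ E0.card := by positivity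
      calc (E0.card : ℝ) ≤ (C + N * Real.log (1 + Real.log d) + E0.card) * 1 := by linarith
        _ ≤ _ := by gcongr
    · intro 𝔣 ψ hψ hfQ hinf
      exact absurd hinf (hE0 𝔣 ψ hψ (by omega))

end Pool.Agent.H11.RC
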